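import Mathlib

set_option autoImplicit false

/-! Project CO (MP_ba391d_an, MP_7235ad_an): algebra of the volume of four bodies. -/

namespace Run7.h852.CO

abbrev E3 := EuclideanSpace ℝ (Fin 3)

/-- triple product -/
def tp (a b c : E3) : ℝ :=
  a 0 * (b 1 * c 2 - b 2 * c 1) - a 1 * (b 0 * c 2 - b 2 * c 0) + a 2 * (b 0 * c 1 - b 1 * c 0)

/-- cross product -/
def cr (a b : E3) : E3 := !₂[a 1 * b 2 - a 2 * b 1, a 2 * b 0 - a 0 * b 2, a 0 * b 1 - a 1 * b 0]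

theorem cr0 (a b : E3) : cr a b 0 = a 1 * b 2 - a 2 * b 1 := rfl
theorem cr1 (a b : E3) : cr a b 1 = a 2 * b 0 - a 0 * b 2 := rfl
theorem cr2 (a b : E3) : cr a b 2 = a 0 * b 1 - a 1 * b 0 := rfl

theorem inner3 (a b : E3) : inner ℝ a b = a 0 * b 0 + a 1 * b 1 + a 2 * b 2 := by
  rw [PiLp.inner_apply, Fin.sum_univ_three]
  simp only [RCLike.inner_apply, conj_trivial]
  ring

theorem inner_cr (a b c : E3) : inner ℝ a (cr b c) = tp a b c := by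
  rw [inner3, cr0, cr1, cr2, tp]
  ring

/-- The basic inequality, in orthogonal coordinates with masses `p, q, r`. -/
theorem alg1 (p q r : ℝ) (hp : 0 < p) (hq : 0 < q) (hr : 0 < r) (a b c a' b' c' : E3) (J : E3)
    (hJ : ∀ k, J k = p * cr a a' k + q * cr b b' k + r * cr c c' k) :
    2 * tp a b c * (tp a' b' c + tp a' b c' + tp a b' c') -
      2 / 3 * (tp a' b c + tp a b' c + tp a b c') ^ 2 ≤
    (p * inner ℝ J a ^ 2 + q * inner ℝ J b ^ 2 + r * inner ℝ J c ^ 2) / (2 * (p * q * r)) := by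
  obtain ⟨k11, h11⟩ : ∃ k, k = tp a' b c := ⟨_, rfl⟩
  obtain ⟨k22, h22⟩ : ∃ k, k = tp a b' c := ⟨_, rfl⟩
  obtain ⟨k33, h33⟩ : ∃ k, k = tp a b c' := ⟨_, rfl⟩
  obtain ⟨k12, h12⟩ : ∃ k, k = tp b' b c := ⟨_, rfl⟩
  obtain ⟨k21, h21⟩ : ∃ k, k = tp a a' c := ⟨_, rfl⟩
  obtain ⟨k13, h13⟩ : ∃ k, k = tp c' b c := ⟨_, rfl⟩
  obtain ⟨k31, h31⟩ : ∃ k, k = tp a b a' := ⟨_, rfl⟩
  obtain ⟨k23, h23⟩ : ∃ k, k = tp a c' c := ⟨_, rfl⟩
  obtain ⟨k32, h32⟩ : ∃ k, k = tp a b b' := ⟨_, rfl⟩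
  have e1 : tp a b c * tp a' b' c = k11 * k22 - k12 * k21 := by
    rw [h11, h22, h12, h21]; unfold tp; ring
  have e2 : tp a b c * tp a' b c' = k11 * k33 - k13 * k31 := by
    rw [h11, h33, h13, h31]; unfold tp; ring
  have e3 : tp a b c * tp a b' c' = k22 * k33 - k23 * k32 := by
    rw [h22, h33, h23, h32]; unfold tp; ring
  have j1 : inner ℝ J a = q * k32 - r * k23 := by
    rw [inner3, hJ, hJ, hJ, cr0, cr0, cr0, cr1, cr1, cr1, cr2, cr2, cr2, h32, h23]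
    unfold tp; ring
  have j2 : inner ℝ J b = r * k13 - p * k31 := by
    rw [inner3, hJ, hJ, hJ, cr0, cr0, cr0, cr1, cr1, cr1, cr2, cr2, cr2, h13, h31]
    unfold tp; ring
  have j3 : inner ℝ J c = p * k21 - q * k12 := by
    rw [inner3, hJ, hJ, hJ, cr0, cr0, cr0, cr1, cr1, cr1, cr2, cr2, cr2, h21, h12]
    unfold tp; ring
  have e4 : 2 * tp a b c * (tp a' b' c + tp a' b c' + tp a b' c') =
      2 * ((k11 * k22 - k12 * k21) + (k11 * k33 - k13 * k31) + (k22 * k33 - k23 * k32)) := by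
    rw [← e1, ← e2, ← e3]; ring
  rw [e4, j1, j2, j3, ← h11, ← h22, ← h33]
  have e5 : (p * (q * k32 - r * k23) ^ 2 + q * (r * k13 - p * k31) ^ 2 +
      r * (p * k21 - q * k12) ^ 2) / (2 * (p * q * r)) -
      (2 * ((k11 * k22 - k12 * k21) + (k11 * k33 - k13 * k31) + (k22 * k33 - k23 * k32)) -
        2 / 3 * (k11 + k22 + k33) ^ 2) =
      1 / 3 * ((k11 - k22) ^ 2 + (k11 - k33) ^ 2 + (k22 - k33) ^ 2) +
      ((q * k32 + r * k23) ^ 2 / (2 * (q * r)) + (r * k13 + p * k31) ^ 2 / (2 * (p * r)) +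
        (p * k21 + q * k12) ^ 2 / (2 * (p * q))) := by
    field_simp
    ring
  have e6 : 0 ≤ 1 / 3 * ((k11 - k22) ^ 2 + (k11 - k33) ^ 2 + (k22 - k33) ^ 2) +
      ((q * k32 + r * k23) ^ 2 / (2 * (q * r)) + (r * k13 + p * k31) ^ 2 / (2 * (p * r)) +
        (p * k21 + q * k12) ^ 2 / (2 * (p * q))) := by positivity
  linarith

/-- Jacobi coordinates, bilinear version of Lagrange's identity. -/
theorem bil (m0 m1 m2 m3 : ℝ) (h0 : 0 < m0) (h1 : 0 < m1) (h2 : 0 < m2) (h3 : 0 < m3)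
    (y1 y2 y3 z1 z2 z3 : ℝ) :
    (m0 + m1 + m2 + m3)⁻¹ * (m0 * m1 * (y1 * z1) + m0 * m2 * (y2 * z2) + m0 * m3 * (y3 * z3) +
      m1 * m2 * ((y2 - y1) * (z2 - z1)) + m1 * m3 * ((y3 - y1) * (z3 - z1)) +
      m2 * m3 * ((y3 - y2) * (z3 - z2))) =
    m0 * m1 / (m0 + m1) * (y1 * z1) +
    (m0 + m1) * m2 / (m0 + m1 + m2) * ((y2 - m1 / (m0 + m1) * y1) * (z2 - m1 / (m0 + m1) * z1)) +
    (m0 + m1 + m2) * m3 / (m0 + m1 + m2 + m3) *
      ((y3 - m1 / (m0 + m1 + m2) * y1 - m2 / (m0 + m1 + m2) * y2) *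
        (z3 - m1 / (m0 + m1 + m2) * z1 - m2 / (m0 + m1 + m2) * z2)) := by
  have : 0 < m0 + m1 := by positivity
  have : 0 < m0 + m1 + m2 := by positivity
  have : 0 < m0 + m1 + m2 + m3 := by positivity
  field_simp
  ring

/-- The basic inequality for the differences `a, b, c` from the first body. -/
theorem alg2 (m0 m1 m2 m3 : ℝ) (h0 : 0 < m0) (h1 : 0 < m1) (h2 : 0 < m2) (h3 : 0 < m3)
    (a b c a' b' c' J : E3)
    (hJ : ∀ k, J k = (m0 + m1 + m2 + m3)⁻¹ * (m0 * m1 * cr a a' k + m0 * m2 * cr b b' k +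
      m0 * m3 * cr c c' k + m1 * m2 * cr (b - a) (b' - a') k + m1 * m3 * cr (c - a) (c' - a') k +
      m2 * m3 * cr (c - b) (c' - b') k)) :
    2 * (m0 * m1 * m2 * m3) * (2 * tp a b c * (tp a' b' c + tp a' b c' + tp a b' c') -
      2 / 3 * (tp a' b c + tp a b' c + tp a b c') ^ 2) ≤
    m0 * m1 * inner ℝ J a ^ 2 + m0 * m2 * inner ℝ J b ^ 2 + m0 * m3 * inner ℝ J c ^ 2 +
      m1 * m2 * inner ℝ J (b - a) ^ 2 + m1 * m3 * inner ℝ J (c - a) ^ 2 +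
      m2 * m3 * inner ℝ J (c - b) ^ 2 := by
  have g1 : 0 < m0 + m1 := by positivity
  have g2 : 0 < m0 + m1 + m2 := by positivity
  have g3 : 0 < m0 + m1 + m2 + m3 := by positivity
  obtain ⟨c1, hc1⟩ : ∃ c1, c1 = m1 / (m0 + m1) := ⟨_, rfl⟩
  obtain ⟨d1, hd1⟩ : ∃ d1, d1 = m1 / (m0 + m1 + m2) := ⟨_, rfl⟩
  obtain ⟨d2, hd2⟩ : ∃ d2, d2 = m2 / (m0 + m1 + m2) := ⟨_, rfl⟩
  obtain ⟨p, hp⟩ : ∃ p, p = m0 * m1 / (m0 + m1) := ⟨_, rfl⟩
  obtain ⟨q, hq⟩ : ∃ q, q = (m0 + m1) * m2 / (m0 + m1 + m2) := ⟨_, rfl⟩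
  obtain ⟨r, hr⟩ : ∃ r, r = (m0 + m1 + m2) * m3 / (m0 + m1 + m2 + m3) := ⟨_, rfl⟩
  have hb := bil m0 m1 m2 m3 h0 h1 h2 h3
  rw [← hc1, ← hd1, ← hd2, ← hp, ← hq, ← hr] at hb
  have hp0 : 0 < p := by rw [hp]; positivity
  have hq0 : 0 < q := by rw [hq]; positivity
  have hr0 : 0 < r := by rw [hr]; positivity
  have hpqr : (m0 + m1 + m2 + m3) * (p * q * r) = m0 * m1 * m2 * m3 := by
    rw [hp, hq, hr]; field_simp
  have hJ' : ∀ k, J k = p * cr a a' k + q * cr (b - c1 • a) (b' - c1 • a') k +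
      r * cr (c - d1 • a - d2 • b) (c' - d1 • a' - d2 • b') k := by
    intro k
    have sub3 : ∀ (u v : E3) (k : Fin 3), (u - v) k = u k - v k := fun _ _ _ => rfl
    have smul3 : ∀ (s : ℝ) (v : E3) (k : Fin 3), (s • v) k = s * v k := fun _ _ _ => rfl
    rw [hJ]
    fin_cases k
    · simp only [Fin.zero_eta, cr0, sub3, smul3]
      have f1 := hb (a 1) (b 1) (c 1) (a' 2) (b' 2) (c' 2)
      have f2 := hb (a 2) (b 2) (c 2) (a' 1) (b' 1) (c' 1)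
      linear_combination f1 - f2
    · simp only [Fin.mk_one, cr1, sub3, smul3]
      have f1 := hb (a 2) (b 2) (c 2) (a' 0) (b' 0) (c' 0)
      have f2 := hb (a 0) (b 0) (c 0) (a' 2) (b' 2) (c' 2)
      linear_combination f1 - f2
    · simp only [Fin.reduceFinMk, cr2, sub3, smul3]
      have f1 := hb (a 0) (b 0) (c 0) (a' 1) (b' 1) (c' 1)
      have f2 := hb (a 1) (b 1) (c 1) (a' 0) (b' 0) (c' 0)
      linear_combination f1 - f2
  have key := alg1 p q r hp0 hq0 hr0 a (b - c1 • a) (c - d1 • a - d2 • b) a' (b' - c1 • a')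
    (c' - d1 • a' - d2 • b') J hJ'
  have sub3 : ∀ (u v : E3) (k : Fin 3), (u - v) k = u k - v k := fun _ _ _ => rfl
  have smul3 : ∀ (s : ℝ) (v : E3) (k : Fin 3), (s • v) k = s * v k := fun _ _ _ => rfl
  have t0 : tp a (b - c1 • a) (c - d1 • a - d2 • b) = tp a b c := by
    unfold tp; simp only [sub3, smul3]; ring
  have t1 : tp a' (b - c1 • a) (c - d1 • a - d2 • b) + tp a (b' - c1 • a') (c - d1 • a - d2 • b) +
      tp a (b - c1 • a) (c' - d1 • a' - d2 • b') = tp a' b c + tp a b' c + tp a b c' := by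
    unfold tp; simp only [sub3, smul3]; ring
  have t2 : tp a' (b' - c1 • a') (c - d1 • a - d2 • b) +
      tp a' (b - c1 • a) (c' - d1 • a' - d2 • b') + tp a (b' - c1 • a') (c' - d1 • a' - d2 • b') =
      tp a' b' c + tp a' b c' + tp a b' c' := by
    unfold tp; simp only [sub3, smul3]; ring
  rw [t0, t1, t2, le_div_iff₀ (by positivity)] at key
  have hin := hb (inner ℝ J a) (inner ℝ J b) (inner ℝ J c) (inner ℝ J a) (inner ℝ J b)
    (inner ℝ J c)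
  simp only [inner_sub_right, inner_smul_right] at key ⊢
  have hM : (m0 + m1 + m2 + m3) * (m0 + m1 + m2 + m3)⁻¹ = 1 := mul_inv_cancel₀ g3.ne'
  have k2 := mul_le_mul_of_nonneg_left key g3.le
  calc 2 * (m0 * m1 * m2 * m3) * (2 * tp a b c * (tp a' b' c + tp a' b c' + tp a b' c') -
        2 / 3 * (tp a' b c + tp a b' c + tp a b c') ^ 2)
      = (m0 + m1 + m2 + m3) * ((2 * tp a b c * (tp a' b' c + tp a' b c' + tp a b' c') -
        2 / 3 * (tp a' b c + tp a b' c + tp a b c') ^ 2) * (2 * (p * q * r))) := by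
        rw [← hpqr]; ring
    _ ≤ _ := k2
    _ = (m0 + m1 + m2 + m3) * ((m0 + m1 + m2 + m3)⁻¹ * (m0 * m1 * (inner ℝ J a * inner ℝ J a) +
        m0 * m2 * (inner ℝ J b * inner ℝ J b) + m0 * m3 * (inner ℝ J c * inner ℝ J c) +
        m1 * m2 * ((inner ℝ J b - inner ℝ J a) * (inner ℝ J b - inner ℝ J a)) +
        m1 * m3 * ((inner ℝ J c - inner ℝ J a) * (inner ℝ J c - inner ℝ J a)) +
        m2 * m3 * ((inner ℝ J c - inner ℝ J b) * (inner ℝ J c - inner ℝ J b)))) := by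
        rw [hin]; ring
    _ = _ := by rw [← mul_assoc, hM, one_mul]; ring

end Run7.h852.CO
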