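import Pool.Agent.Run7.h852.CO.Alg

set_option autoImplicit false

/-! Project CO (MP_ba391d_an, MP_7235ad_an): the volume along solutions. -/

namespace Run7.h852.CO

open Set

theorem comp_deriv {a : ℝ → E3} {a' : E3} {t : ℝ} (h : HasDerivAt a a' t) (k : Fin 3) :
    HasDerivAt (fun s => a s k) (a' k) t :=
  (EuclideanSpace.proj k : E3 →L[ℝ] ℝ).hasFDerivAt.comp_hasDerivAt t h

theorem tp_deriv {a b c : ℝ → E3} {a' b' c' : E3} {t : ℝ} (ha : HasDerivAt a a' t)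
    (hb : HasDerivAt b b' t) (hc : HasDerivAt c c' t) :
    HasDerivAt (fun s => tp (a s) (b s) (c s))
      (tp a' (b t) (c t) + tp (a t) b' (c t) + tp (a t) (b t) c') t := by
  unfold tp
  have a0 := comp_deriv ha 0
  have a1 := comp_deriv ha 1
  have a2 := comp_deriv ha 2
  have b0 := comp_deriv hb 0
  have b1 := comp_deriv hb 1
  have b2 := comp_deriv hb 2
  have c0 := comp_deriv hc 0
  have c1 := comp_deriv hc 1
  have c2 := comp_deriv hc 2
  have h := ((a0.mul ((b1.mul c2).sub (b2.mul c1))).sub (a1.mul ((b0.mul c2).sub (b2.mul c0)))).add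
    (a2.mul ((b0.mul c1).sub (b1.mul c0)))
  refine h.congr_deriv ?_
  simp only [Pi.mul_apply, Pi.sub_apply]
  ring

/-- Riccati -/
theorem ricc (κ : ℝ) (hκ : 0 < κ) (y y' : ℝ → ℝ) (a b : ℝ) (hab : a ≤ b)
    (hd : ∀ t ∈ Icc a b, HasDerivAt y (y' t) t)
    (hle : ∀ t ∈ Icc a b, y' t ≤ -(κ + y t ^ 2 / 3)) : b - a < Real.pi * √(3 / κ) := by
  obtain ⟨s, hs⟩ : ∃ s, s = √(3 * κ) := ⟨_, rfl⟩
  have hs0 : 0 < s := by rw [hs]; exact Real.sqrt_pos.2 (by positivity)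
  have hs2 : s ^ 2 = 3 * κ := by rw [hs]; exact Real.sq_sqrt (by positivity)
  have hF : ∀ t ∈ Icc a b, HasDerivAt (fun t => Real.arctan (y t / s) + κ / s * t)
      (1 / (1 + (y t / s) ^ 2) * (y' t / s) + κ / s * 1) t := fun t ht =>
    ((hd t ht).div_const s).arctan.add ((hasDerivAt_id t).const_mul (κ / s))
  have hanti : AntitoneOn (fun t => Real.arctan (y t / s) + κ / s * t) (Icc a b) := by
    refine antitoneOn_of_deriv_nonpos (convex_Icc a b)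
      (fun t ht => (hF t ht).continuousAt.continuousWithinAt)
      (fun t ht => (hF t (interior_subset ht)).differentiableAt.differentiableWithinAt) ?_
    intro t ht
    have ht' := interior_subset ht
    rw [(hF t ht').deriv]
    have h1 := hle t ht'
    have h2 : 0 < 1 + (y t / s) ^ 2 := by positivity
    have h3 : κ * (1 + (y t / s) ^ 2) = κ + y t ^ 2 / 3 := by
      rw [div_pow, hs2]; field_simp
    have h4 : y' t / s ≤ -(κ * (1 + (y t / s) ^ 2)) / s := by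
      rw [h3]; exact div_le_div_of_nonneg_right h1 hs0.le
    have h5 : 1 / (1 + (y t / s) ^ 2) * (y' t / s) ≤
        1 / (1 + (y t / s) ^ 2) * (-(κ * (1 + (y t / s) ^ 2)) / s) :=
      mul_le_mul_of_nonneg_left h4 (by positivity)
    have h6 : 1 / (1 + (y t / s) ^ 2) * (-(κ * (1 + (y t / s) ^ 2)) / s) = -(κ / s) := by
      field_simp
    linarith
  have h1 := hanti (left_mem_Icc.2 hab) (right_mem_Icc.2 hab) hab
  simp only at h1
  have h2 := Real.arctan_lt_pi_div_two (y a / s)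
  have h3 := Real.neg_pi_div_two_lt_arctan (y b / s)
  have h4 : κ / s * (b - a) < Real.pi := by
    have : κ / s * (b - a) = κ / s * b - κ / s * a := by ring
    linarith
  have h5 : √(3 / κ) = s / κ := by
    rw [hs, show 3 / κ = 3 * κ / κ ^ 2 by field_simp, Real.sqrt_div (by positivity),
      Real.sqrt_sq hκ.le]
  rw [h5]
  have h6 : κ / s * (b - a) * (s / κ) < Real.pi * (s / κ) :=
    mul_lt_mul_of_pos_right h4 (by positivity)
  have h7 : κ / s * (b - a) * (s / κ) = b - a := by field_simp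
  linarith

/-- solutions of the four-body problem on the set `I` -/
structure IsSol (m : Fin 4 → ℝ) (I : Set ℝ) (x v : ℝ → Fin 4 → E3) : Prop where
  ne : ∀ t ∈ I, ∀ i j, i ≠ j → x t i ≠ x t j
  vel : ∀ t ∈ I, ∀ i, HasDerivAt (fun s => x s i) (v t i) t
  acc : ∀ t ∈ I, ∀ i, HasDerivAt (fun s => v s i)
    (∑ j, (m j / ‖x t j - x t i‖ ^ 3) • (x t j - x t i)) t

/-- six times the volume -/
def Vl (q : Fin 4 → E3) : ℝ := tp (q 1 - q 0) (q 2 - q 0) (q 3 - q 0)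

noncomputable def S (m : Fin 4 → ℝ) (q : Fin 4 → E3) : ℝ := ∑ i, ∑ j, m j / ‖q j - q i‖ ^ 3

/-- angular momentum about the centre of mass -/
noncomputable def ang (m : Fin 4 → ℝ) (q w : Fin 4 → E3) : E3 :=
  (∑ i, m i)⁻¹ • ∑ i, ∑ j, (m i * m j / 2) • cr (q i - q j) (w i - w j)

noncomputable def QJ (m : Fin 4 → ℝ) (q w : Fin 4 → E3) : ℝ :=
  ∑ i, ∑ j, m i * m j / 2 * inner ℝ (ang m q w) (q i - q j) ^ 2

theorem sub3 (u v : E3) (k : Fin 3) : (u - v) k = u k - v k := rfl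
theorem add3 (u v : E3) (k : Fin 3) : (u + v) k = u k + v k := rfl
theorem smul3 (s : ℝ) (v : E3) (k : Fin 3) : (s • v) k = s * v k := rfl

theorem QJ_nonneg (m : Fin 4 → ℝ) (hm : ∀ i, 0 < m i) (q w : Fin 4 → E3) : 0 ≤ QJ m q w :=
  Finset.sum_nonneg fun i _ => Finset.sum_nonneg fun j _ => by
    have := hm i; have := hm j; positivity

/-- the basic inequality -/
theorem base (m : Fin 4 → ℝ) (hm : ∀ i, 0 < m i) (q w : Fin 4 → E3) :
    2 * (m 0 * m 1 * m 2 * m 3) * (2 * Vl q *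
      (tp (w 1 - w 0) (w 2 - w 0) (q 3 - q 0) + tp (w 1 - w 0) (q 2 - q 0) (w 3 - w 0) +
        tp (q 1 - q 0) (w 2 - w 0) (w 3 - w 0)) -
      2 / 3 * (tp (w 1 - w 0) (q 2 - q 0) (q 3 - q 0) + tp (q 1 - q 0) (w 2 - w 0) (q 3 - q 0) +
        tp (q 1 - q 0) (q 2 - q 0) (w 3 - w 0)) ^ 2) ≤ QJ m q w := by
  have h := alg2 (m 0) (m 1) (m 2) (m 3) (hm 0) (hm 1) (hm 2) (hm 3) (q 1 - q 0) (q 2 - q 0)
    (q 3 - q 0) (w 1 - w 0) (w 2 - w 0) (w 3 - w 0) (ang m q w) (by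
      intro k
      unfold ang
      rw [smul3]
      simp only [Fin.sum_univ_four, add3, smul3]
      fin_cases k
      · simp only [Fin.zero_eta, cr0, sub3]
        ring
      · simp only [Fin.mk_one, cr1, sub3]
        ring
      · simp only [Fin.reduceFinMk, cr2, sub3]
        ring)
  refine h.trans (le_of_eq ?_)
  unfold QJ
  simp only [Fin.sum_univ_four, inner_sub_right]
  ring

/-- The derivatives of the volume. -/
theorem Vl_deriv {m : Fin 4 → ℝ} {I : Set ℝ} {x v : ℝ → Fin 4 → E3} (h : IsSol m I x v) {t : ℝ}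
    (ht : t ∈ I) :
    HasDerivAt (fun s => Vl (x s)) (tp (v t 1 - v t 0) (x t 2 - x t 0) (x t 3 - x t 0) +
      tp (x t 1 - x t 0) (v t 2 - v t 0) (x t 3 - x t 0) +
      tp (x t 1 - x t 0) (x t 2 - x t 0) (v t 3 - v t 0)) t ∧
    HasDerivAt (fun s => tp (v s 1 - v s 0) (x s 2 - x s 0) (x s 3 - x s 0) +
      tp (x s 1 - x s 0) (v s 2 - v s 0) (x s 3 - x s 0) +
      tp (x s 1 - x s 0) (x s 2 - x s 0) (v s 3 - v s 0))
      (-S m (x t) * Vl (x t) + 2 * (tp (v t 1 - v t 0) (v t 2 - v t 0) (x t 3 - x t 0) +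
        tp (v t 1 - v t 0) (x t 2 - x t 0) (v t 3 - v t 0) +
        tp (x t 1 - x t 0) (v t 2 - v t 0) (v t 3 - v t 0))) t := by
  have u1 := (h.vel t ht 1).sub (h.vel t ht 0)
  have u2 := (h.vel t ht 2).sub (h.vel t ht 0)
  have u3 := (h.vel t ht 3).sub (h.vel t ht 0)
  have w1 := (h.acc t ht 1).sub (h.acc t ht 0)
  have w2 := (h.acc t ht 2).sub (h.acc t ht 0)
  have w3 := (h.acc t ht 3).sub (h.acc t ht 0)
  refine ⟨tp_deriv u1 u2 u3, ?_⟩
  have hh := ((tp_deriv w1 u2 u3).add (tp_deriv u1 w2 u3)).add (tp_deriv u1 u2 w3)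
  refine hh.congr_deriv ?_
  unfold S Vl
  simp only [Fin.sum_univ_four]
  obtain ⟨k, hk⟩ : ∃ k : Fin 4 → Fin 4 → ℝ, k = fun i j => m j / ‖x t j - x t i‖ ^ 3 := ⟨_, rfl⟩
  have hk' : ∀ i j, m j / ‖x t j - x t i‖ ^ 3 = k i j := fun i j => by rw [hk]
  have hkk : ∀ i, k i i = 0 := fun i => by rw [hk]; simp
  simp only [hk']
  simp only [hkk]
  unfold tp
  simp only [Pi.sub_apply, sub3, add3, smul3]
  ring

/-- **The general theorem.** -/
theorem main {m : Fin 4 → ℝ} (hm : ∀ i, 0 < m i) {I : Set ℝ} {x v : ℝ → Fin 4 → E3}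
    (h : IsSol m I x v) (κ : ℝ) (hκ : 0 < κ) (a b : ℝ) (hab : a ≤ b) (hI : Icc a b ⊆ I)
    (hlt : ∀ t ∈ Icc a b, QJ m (x t) (v t) <
      2 * (m 0 * m 1 * m 2 * m 3) * (S m (x t) - κ) * Vl (x t) ^ 2) :
    b - a < Real.pi * √(3 / κ) := by
  have hP : 0 < m 0 * m 1 * m 2 * m 3 := by
    have := hm 0; have := hm 1; have := hm 2; have := hm 3; positivity
  have hV : ∀ t ∈ Icc a b, Vl (x t) ≠ 0 := by
    intro t ht h0
    have h1 := hlt t ht
    have h2 := QJ_nonneg m hm (x t) (v t)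
    rw [h0] at h1
    simp at h1
    linarith
  obtain ⟨V1, hV1⟩ : ∃ V1 : ℝ → ℝ, V1 = fun s => tp (v s 1 - v s 0) (x s 2 - x s 0) (x s 3 - x s 0) +
      tp (x s 1 - x s 0) (v s 2 - v s 0) (x s 3 - x s 0) +
      tp (x s 1 - x s 0) (x s 2 - x s 0) (v s 3 - v s 0) := ⟨_, rfl⟩
  obtain ⟨W2, hW2⟩ : ∃ W2 : ℝ → ℝ, W2 = fun t => tp (v t 1 - v t 0) (v t 2 - v t 0) (x t 3 - x t 0) +
        tp (v t 1 - v t 0) (x t 2 - x t 0) (v t 3 - v t 0) +
        tp (x t 1 - x t 0) (v t 2 - v t 0) (v t 3 - v t 0) := ⟨_, rfl⟩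
  refine ricc κ hκ (fun s => V1 s / Vl (x s)) (fun t => ((-S m (x t) * Vl (x t) + 2 * W2 t) *
    Vl (x t) - V1 t * V1 t) / Vl (x t) ^ 2) a b hab (fun t ht => ?_) (fun t ht => ?_)
  · obtain ⟨d1, d2⟩ := Vl_deriv h (hI ht)
    have e1 : V1 t = tp (v t 1 - v t 0) (x t 2 - x t 0) (x t 3 - x t 0) +
      tp (x t 1 - x t 0) (v t 2 - v t 0) (x t 3 - x t 0) +
      tp (x t 1 - x t 0) (x t 2 - x t 0) (v t 3 - v t 0) := by rw [hV1]
    have e2 : W2 t = tp (v t 1 - v t 0) (v t 2 - v t 0) (x t 3 - x t 0) +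
        tp (v t 1 - v t 0) (x t 2 - x t 0) (v t 3 - v t 0) +
        tp (x t 1 - x t 0) (v t 2 - v t 0) (v t 3 - v t 0) := by rw [hW2]
    rw [← e1] at d1
    rw [← e2, ← hV1] at d2
    exact d2.div d1 (hV t ht)
  · have h1 := hlt t ht
    have h2 := base m hm (x t) (v t)
    have e1 : V1 t = tp (v t 1 - v t 0) (x t 2 - x t 0) (x t 3 - x t 0) +
      tp (x t 1 - x t 0) (v t 2 - v t 0) (x t 3 - x t 0) +
      tp (x t 1 - x t 0) (x t 2 - x t 0) (v t 3 - v t 0) := by rw [hV1]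
    have e2 : W2 t = tp (v t 1 - v t 0) (v t 2 - v t 0) (x t 3 - x t 0) +
        tp (v t 1 - v t 0) (x t 2 - x t 0) (v t 3 - v t 0) +
        tp (x t 1 - x t 0) (v t 2 - v t 0) (v t 3 - v t 0) := by rw [hW2]
    rw [← e1, ← e2] at h2
    have hv := hV t ht
    have hv2 : 0 < Vl (x t) ^ 2 := by positivity
    have h3 : 2 * Vl (x t) * W2 t - 2 / 3 * V1 t ^ 2 < (S m (x t) - κ) * Vl (x t) ^ 2 := by
      have h4 : 2 * (m 0 * m 1 * m 2 * m 3) * (2 * Vl (x t) * W2 t - 2 / 3 * V1 t ^ 2) <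
          2 * (m 0 * m 1 * m 2 * m 3) * ((S m (x t) - κ) * Vl (x t) ^ 2) := by
        calc _ ≤ _ := h2
          _ < _ := h1
          _ = _ := by ring
      exact lt_of_mul_lt_mul_left h4 (by positivity)
    rw [div_le_iff₀ hv2]
    have h5 : -(κ + (V1 t / Vl (x t)) ^ 2 / 3) * Vl (x t) ^ 2 =
        -κ * Vl (x t) ^ 2 - V1 t ^ 2 / 3 := by
      field_simp
      ring
    rw [h5]
    nlinarith

/-- lower bound of `S` for negative energy -/
theorem S_energy {m : Fin 4 → ℝ} (hm : ∀ i, 0 < m i) {μ h : ℝ} (hμ : 0 < μ) (hμm : ∀ i, μ ≤ m i)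
    (hh : 0 < h) (q w : Fin 4 → E3) (hne : ∀ i j, i ≠ j → q i ≠ q j)
    (hE : ∑ i, m i * ‖w i‖ ^ 2 / 2 - ∑ i, ∑ j, m i * m j / ‖q i - q j‖ / 2 ≤ -h) :
    2 * (μ * h ^ 3 / (((∑ i, m i) ^ 2 - ∑ i, m i ^ 2) / 2) ^ 3) ≤ S m q := by
  obtain ⟨P, hP⟩ : ∃ P, P = ((∑ i, m i) ^ 2 - ∑ i, m i ^ 2) / 2 := ⟨_, rfl⟩
  have hPe : P = m 0 * m 1 + m 0 * m 2 + m 0 * m 3 + m 1 * m 2 + m 1 * m 3 + m 2 * m 3 := by
    rw [hP]; simp only [Fin.sum_univ_four]; ring
  have hP0 : 0 < P := by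
    rw [hPe]
    have := hm 0; have := hm 1; have := hm 2; have := hm 3; positivity
  obtain ⟨ρ, hρ⟩ : ∃ ρ, ρ = P / h := ⟨_, rfl⟩
  have hρ0 : 0 < ρ := by rw [hρ]; positivity
  have hK : 0 ≤ ∑ i, m i * ‖w i‖ ^ 2 / 2 := Finset.sum_nonneg fun i _ => by
    have := hm i; positivity
  have hU : h ≤ ∑ i, ∑ j, m i * m j / ‖q i - q j‖ / 2 := by linarith
  obtain ⟨i, j, hij, hr⟩ : ∃ i j, i ≠ j ∧ ‖q i - q j‖ ≤ ρ := by
    by_contra hcon
    push Not at hcon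
    have hp : ∀ i j, i ≠ j → m i * m j / ‖q i - q j‖ < m i * m j / ρ := fun i j hij => by
      have h1 := hcon i j hij
      have := hm i
      have := hm j
      exact div_lt_div_of_pos_left (by positivity) hρ0 h1
    have hd : ∀ i, m i * m i / ‖q i - q i‖ = 0 := fun i => by simp
    have hPρ : P / ρ = h := by rw [hρ]; field_simp
    simp only [Fin.sum_univ_four, hd] at hU
    have hsum : P / ρ = m 0 * m 1 / ρ + m 0 * m 2 / ρ + m 0 * m 3 / ρ + m 1 * m 2 / ρ +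
        m 1 * m 3 / ρ + m 2 * m 3 / ρ := by rw [hPe]; ring
    have c10 : m 1 * m 0 / ρ = m 0 * m 1 / ρ := by rw [mul_comm (m 1)]
    have c20 : m 2 * m 0 / ρ = m 0 * m 2 / ρ := by rw [mul_comm (m 2)]
    have c30 : m 3 * m 0 / ρ = m 0 * m 3 / ρ := by rw [mul_comm (m 3)]
    have c21 : m 2 * m 1 / ρ = m 1 * m 2 / ρ := by rw [mul_comm (m 2)]
    have c31 : m 3 * m 1 / ρ = m 1 * m 3 / ρ := by rw [mul_comm (m 3)]
    have c32 : m 3 * m 2 / ρ = m 2 * m 3 / ρ := by rw [mul_comm (m 3)]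
    have p01 := hp 0 1 (by decide)
    have p02 := hp 0 2 (by decide)
    have p03 := hp 0 3 (by decide)
    have p12 := hp 1 2 (by decide)
    have p13 := hp 1 3 (by decide)
    have p23 := hp 2 3 (by decide)
    have p10 := hp 1 0 (by decide)
    have p20 := hp 2 0 (by decide)
    have p30 := hp 3 0 (by decide)
    have p21 := hp 2 1 (by decide)
    have p31 := hp 3 1 (by decide)
    have p32 := hp 3 2 (by decide)
    linarith
  have hr0 : 0 < ‖q i - q j‖ := norm_pos_iff.2 (sub_ne_zero.2 (hne i j hij))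
  have ht0 : ∀ i j, 0 ≤ m j / ‖q j - q i‖ ^ 3 := fun i j => by have := hm j; positivity
  have h1 : ∑ l ∈ ({i, j} : Finset (Fin 4)), ∑ k, m k / ‖q k - q l‖ ^ 3 ≤ S m q :=
    Finset.sum_le_sum_of_subset_of_nonneg (Finset.subset_univ _)
      fun l _ _ => Finset.sum_nonneg fun k _ => ht0 l k
  rw [Finset.sum_pair hij] at h1
  have h2 : m j / ‖q j - q i‖ ^ 3 ≤ ∑ k, m k / ‖q k - q i‖ ^ 3 :=
    Finset.single_le_sum (f := fun k => m k / ‖q k - q i‖ ^ 3) (fun k _ => ht0 i k)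
      (Finset.mem_univ _)
  have h3 : m i / ‖q i - q j‖ ^ 3 ≤ ∑ k, m k / ‖q k - q j‖ ^ 3 :=
    Finset.single_le_sum (f := fun k => m k / ‖q k - q j‖ ^ 3) (fun k _ => ht0 j k)
      (Finset.mem_univ _)
  have h4 : μ / ρ ^ 3 ≤ m i / ‖q i - q j‖ ^ 3 :=
    div_le_div₀ (hm i).le (hμm i) (by positivity) (pow_le_pow_left₀ hr0.le hr 3)
  have h5 : μ / ρ ^ 3 ≤ m j / ‖q j - q i‖ ^ 3 := by
    rw [norm_sub_rev]
    exact div_le_div₀ (hm j).le (hμm j) (by positivity) (pow_le_pow_left₀ hr0.le hr 3)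
  have h6 : μ * h ^ 3 / P ^ 3 = μ / ρ ^ 3 := by rw [hρ]; field_simp
  rw [← hP, h6]
  linarith

/-- lower bound of `S` for bounded distances -/
theorem S_bounded {m : Fin 4 → ℝ} (hm : ∀ i, 0 < m i) {R : ℝ} (q : Fin 4 → E3)
    (hne : ∀ i j, i ≠ j → q i ≠ q j) (hR : ∀ i j, ‖q i - q j‖ ≤ R) :
    3 * (∑ i, m i) / R ^ 3 ≤ S m q := by
  have hp : ∀ i j, i ≠ j → m j / R ^ 3 ≤ m j / ‖q j - q i‖ ^ 3 := fun i j hij => by
    have h0 : 0 < ‖q j - q i‖ := norm_pos_iff.2 (sub_ne_zero.2 (hne j i hij.symm))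
    have := hm j
    exact div_le_div_of_nonneg_left this.le (by positivity)
      (pow_le_pow_left₀ h0.le (hR j i) 3)
  unfold S
  simp only [Fin.sum_univ_four, sub_self, norm_zero]
  have p01 := hp 0 1 (by decide)
  have p02 := hp 0 2 (by decide)
  have p03 := hp 0 3 (by decide)
  have p12 := hp 1 2 (by decide)
  have p13 := hp 1 3 (by decide)
  have p23 := hp 2 3 (by decide)
  have p10 := hp 1 0 (by decide)
  have p20 := hp 2 0 (by decide)
  have p30 := hp 3 0 (by decide)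
  have p21 := hp 2 1 (by decide)
  have p31 := hp 3 1 (by decide)
  have p32 := hp 3 2 (by decide)
  have e : 3 * (m 0 + m 1 + m 2 + m 3) / R ^ 3 = 3 * (m 0 / R ^ 3) + 3 * (m 1 / R ^ 3) +
      3 * (m 2 / R ^ 3) + 3 * (m 3 / R ^ 3) := by ring
  have z : ∀ c : ℝ, c / (0 : ℝ) ^ 3 = 0 := fun c => by simp
  rw [e, z, z, z, z]
  linarith

end Run7.h852.CO
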