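import Pool.Agent.Run7.h852.CO.Plane

set_option autoImplicit false

/-! Project CO: the outer body of a hierarchical triple. -/

namespace Run7.h852.CO.Far

open Run7.h852.CO.Pl (E2 d2 sub2 add2 smul2)

def dt (a b : E2) : ℝ := a 0 * b 0 + a 1 * b 1

theorem nsq (a : E2) : ‖a‖ ^ 2 = a 0 ^ 2 + a 1 ^ 2 := by
  rw [EuclideanSpace.norm_sq_eq, Fin.sum_univ_two]
  simp

theorem dt_le (a b : E2) : |dt a b| ≤ ‖a‖ * ‖b‖ := by
  apply abs_le_of_sq_le_sq _ (by positivity)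
  rw [mul_pow, nsq, nsq]
  unfold dt
  nlinarith [sq_nonneg (a 0 * b 1 - a 1 * b 0)]

theorem lag (a b : E2) : d2 a b ^ 2 + dt a b ^ 2 = ‖a‖ ^ 2 * ‖b‖ ^ 2 := by
  rw [nsq, nsq]; unfold d2 dt; ring

/-- geometry of a hierarchical configuration -/
theorem geo (a b c : ℝ) (ha : 0 < a) (hb : 0 < b) (hc : 0 < c) (p q s : E2)
    (hcm : a • p + b • q + c • s = 0) (hr : 2 * ‖p - q‖ ≤ ‖s‖) (hs : 0 < ‖s‖) :
    dt s (p - s) ≤ -(‖s‖ ^ 2 / 2) ∧ ‖p - s‖ ≤ 2 * ((a + b + c) / (a + b)) * ‖s‖ ∧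
      ‖s‖ / 2 ≤ ‖p - s‖ := by
  obtain ⟨L, hL⟩ : ∃ L, L = (a + b + c) / (a + b) := ⟨_, rfl⟩
  obtain ⟨e, he⟩ : ∃ e, e = b / (a + b) := ⟨_, rfl⟩
  have hab : 0 < a + b := by positivity
  have hL1 : 1 ≤ L := by rw [hL, one_le_div hab]; linarith
  have he0 : 0 ≤ e := by rw [he]; positivity
  have he1 : e ≤ 1 := by rw [he, div_le_one hab]; linarith
  have hps : p - s = (-L) • s + e • (p - q) := by
    ext k
    have hk : a * p k + b * q k + c * s k = 0 := by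
      have := congrArg (fun z : E2 => z k) hcm
      simpa [add2, smul2] using this
    simp only [sub2, add2, smul2]
    rw [hL, he]
    field_simp
    linear_combination hk
  have hab2 : |dt s (p - q)| ≤ ‖s‖ * ‖p - q‖ := dt_le _ _
  have hexp : dt s (p - s) = -L * ‖s‖ ^ 2 + e * dt s (p - q) := by
    rw [hps, nsq]; unfold dt; simp only [sub2, add2, smul2]; ring
  have hle : e * dt s (p - q) ≤ ‖s‖ ^ 2 / 2 := by
    calc e * dt s (p - q) ≤ e * (‖s‖ * ‖p - q‖) :=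
          mul_le_mul_of_nonneg_left (le_trans (le_abs_self _) hab2) he0
      _ ≤ 1 * (‖s‖ * ‖p - q‖) := mul_le_mul_of_nonneg_right he1 (by positivity)
      _ ≤ ‖s‖ ^ 2 / 2 := by nlinarith [norm_nonneg (p - q)]
  refine ⟨?_, ?_, ?_⟩
  · rw [hexp]; nlinarith [sq_nonneg ‖s‖]
  · rw [← hL, hps]
    calc ‖(-L) • s + e • (p - q)‖ ≤ ‖(-L) • s‖ + ‖e • (p - q)‖ := norm_add_le _ _
      _ = L * ‖s‖ + e * ‖p - q‖ := by
        rw [norm_smul, norm_smul, Real.norm_eq_abs, Real.norm_eq_abs, abs_neg,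
          abs_of_nonneg (by linarith : (0 : ℝ) ≤ L), abs_of_nonneg he0]
      _ ≤ 2 * L * ‖s‖ := by nlinarith [norm_nonneg (p - q)]
  · rw [hps]
    have h1 : ‖(-L) • s‖ - ‖e • (p - q)‖ ≤ ‖(-L) • s + e • (p - q)‖ := by
      have := norm_sub_norm_le ((-L) • s) (-(e • (p - q)))
      rwa [norm_neg, sub_neg_eq_add] at this
    rw [norm_smul, norm_smul, Real.norm_eq_abs, Real.norm_eq_abs, abs_neg,
          abs_of_nonneg (by linarith : (0 : ℝ) ≤ L), abs_of_nonneg he0] at h1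
    nlinarith [norm_nonneg (p - q)]

/-- the outer body is attracted -/
theorem attr (a b c : ℝ) (ha : 0 < a) (hb : 0 < b) (hc : 0 < c) (p q s : E2)
    (hcm : a • p + b • q + c • s = 0) (hr : 2 * ‖p - q‖ ≤ ‖s‖) (hs : 0 < ‖s‖) :
    dt s ((a / ‖p - s‖ ^ 3) • (p - s)) ≤ -(a / (16 * ((a + b + c) / (a + b)) ^ 3 * ‖s‖)) := by
  obtain ⟨h1, h2, h3⟩ := geo a b c ha hb hc p q s hcm hr hs
  obtain ⟨L, hL⟩ : ∃ L, L = (a + b + c) / (a + b) := ⟨_, rfl⟩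
  have hL0 : 0 < L := by rw [hL]; positivity
  rw [← hL] at h2 ⊢
  have hd : 0 < ‖p - s‖ := by linarith
  have e1 : dt s ((a / ‖p - s‖ ^ 3) • (p - s)) = a / ‖p - s‖ ^ 3 * dt s (p - s) := by
    unfold dt; simp only [smul2]; ring
  rw [e1]
  have h4 : a / ‖p - s‖ ^ 3 * dt s (p - s) ≤ a / ‖p - s‖ ^ 3 * (-(‖s‖ ^ 2 / 2)) :=
    mul_le_mul_of_nonneg_left h1 (by positivity)
  have h5 : a / (2 * L * ‖s‖) ^ 3 ≤ a / ‖p - s‖ ^ 3 :=
    div_le_div_of_nonneg_left ha.le (by positivity) (pow_le_pow_left₀ hd.le h2 3)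
  have h6 : a / (2 * L * ‖s‖) ^ 3 * (‖s‖ ^ 2 / 2) = a / (16 * L ^ 3 * ‖s‖) := by
    field_simp
    ring
  have h7 : a / (2 * L * ‖s‖) ^ 3 * (‖s‖ ^ 2 / 2) ≤ a / ‖p - s‖ ^ 3 * (‖s‖ ^ 2 / 2) :=
    mul_le_mul_of_nonneg_right h5 (by positivity)
  linarith

/-- speed of the outer body at an instant where its distance is critical -/
theorem speed (a b c ρ : ℝ) (ha : 0 < a) (hb : 0 < b) (hc : 0 < c) (p q s p' q' s' : E2)
    (hcm : a • p + b • q + c • s = 0) (hcv : a • p' + b • q' + c • s' = 0)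
    (hr : 2 * ‖p - q‖ ≤ ‖s‖) (hs : 0 < ‖s‖) (hpq : 0 < ‖p - q‖) (hρ : ‖p - q‖ ≤ ρ)
    (hJ : a * d2 p p' + b * d2 q q' + c * d2 s s' = 0)
    (hE : (a * ‖p'‖ ^ 2 + b * ‖q'‖ ^ 2 + c * ‖s'‖ ^ 2) / 2 ≤
      a * b / ‖p - q‖ + a * c / ‖p - s‖ + b * c / ‖q - s‖)
    (h0 : dt s s' = 0) :
    c ^ 2 * ((a + b + c) / (a + b)) ^ 2 * (‖s‖ ^ 2 * ‖s'‖ ^ 2) ≤
      2 * (a * b) / (a + b) * (a * b + a * c + b * c) * ρ := by
  have hab : 0 < a + b := by positivity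
  obtain ⟨L, hL⟩ : ∃ L, L = (a + b + c) / (a + b) := ⟨_, rfl⟩
  obtain ⟨g1, g2, g3⟩ := geo a b c ha hb hc p q s hcm hr hs
  obtain ⟨k1, k2, k3⟩ := geo b a c hb ha hc q p s (by rw [← hcm]; abel)
    (by rwa [norm_sub_rev]) hs
  have hl := lag s s'
  rw [h0] at hl
  have hl2 : ‖s‖ ^ 2 * ‖s'‖ ^ 2 = d2 s s' ^ 2 := by linarith
  rw [hl2]
  -- angular momentum
  have hcm0 : ∀ k, a * p k + b * q k + c * s k = 0 := fun k => by
    have := congrArg (fun z : E2 => z k) hcm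
    simpa [add2, smul2] using this
  have hcv0 : ∀ k, a * p' k + b * q' k + c * s' k = 0 := fun k => by
    have := congrArg (fun z : E2 => z k) hcv
    simpa [add2, smul2] using this
  have hA : c * L * d2 s s' = -(a * b / (a + b)) * d2 (p - q) (p' - q') := by
    rw [hL]
    have e1 : (a + b) * (a * d2 p p' + b * d2 q q') = a * b * d2 (p - q) (p' - q') +
        c ^ 2 * d2 s s' := by
      have x0 : c * s 0 = -(a * p 0 + b * q 0) := by linarith [hcm0 0]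
      have x1 : c * s 1 = -(a * p 1 + b * q 1) := by linarith [hcm0 1]
      have y0 : c * s' 0 = -(a * p' 0 + b * q' 0) := by linarith [hcv0 0]
      have y1 : c * s' 1 = -(a * p' 1 + b * q' 1) := by linarith [hcv0 1]
      have : c ^ 2 * d2 s s' = (c * s 0) * (c * s' 1) - (c * s 1) * (c * s' 0) := by
        unfold d2; ring
      rw [this, x0, x1, y0, y1]
      unfold d2
      simp only [sub2]
      ring
    have e2 : (a + b) * (a * d2 p p' + b * d2 q q') = -((a + b) * c * d2 s s') := by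
      linear_combination (a + b) * hJ
    field_simp
    linear_combination e2 - e1
  have hB : c ^ 2 * L ^ 2 * d2 s s' ^ 2 = (a * b / (a + b)) ^ 2 * d2 (p - q) (p' - q') ^ 2 := by
    have : c ^ 2 * L ^ 2 * d2 s s' ^ 2 = (c * L * d2 s s') ^ 2 := by ring
    rw [this, hA]; ring
  rw [← hL, hB]
  have hC : d2 (p - q) (p' - q') ^ 2 ≤ ‖p - q‖ ^ 2 * ‖p' - q'‖ ^ 2 := by
    have := lag (p - q) (p' - q')
    nlinarith [sq_nonneg (dt (p - q) (p' - q'))]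
  -- kinetic energy
  have hD : a * b / (a + b) * ‖p' - q'‖ ^ 2 ≤ a * ‖p'‖ ^ 2 + b * ‖q'‖ ^ 2 := by
    rw [div_mul_eq_mul_div, div_le_iff₀ hab, nsq, nsq, nsq]
    simp only [sub2]
    nlinarith [sq_nonneg (a * p' 0 + b * q' 0), sq_nonneg (a * p' 1 + b * q' 1)]
  have hU : a * b / ‖p - q‖ + a * c / ‖p - s‖ + b * c / ‖q - s‖ ≤
      (a * b + a * c + b * c) / ‖p - q‖ := by
    have u1 : a * c / ‖p - s‖ ≤ a * c / ‖p - q‖ :=
      div_le_div_of_nonneg_left (by positivity) hpq (by linarith)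
    have u2 : b * c / ‖q - s‖ ≤ b * c / ‖p - q‖ :=
      div_le_div_of_nonneg_left (by positivity) hpq (by linarith)
    have : (a * b + a * c + b * c) / ‖p - q‖ = a * b / ‖p - q‖ + a * c / ‖p - q‖ +
        b * c / ‖p - q‖ := by ring
    linarith
  have hK : a * b / (a + b) * ‖p' - q'‖ ^ 2 ≤ 2 * ((a * b + a * c + b * c) / ‖p - q‖) := by
    have : 0 ≤ c * ‖s'‖ ^ 2 := by positivity
    linarith
  calc (a * b / (a + b)) ^ 2 * d2 (p - q) (p' - q') ^ 2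
      ≤ (a * b / (a + b)) ^ 2 * (‖p - q‖ ^ 2 * ‖p' - q'‖ ^ 2) :=
        mul_le_mul_of_nonneg_left hC (by positivity)
    _ = a * b / (a + b) * ‖p - q‖ ^ 2 * (a * b / (a + b) * ‖p' - q'‖ ^ 2) := by ring
    _ ≤ a * b / (a + b) * ‖p - q‖ ^ 2 * (2 * ((a * b + a * c + b * c) / ‖p - q‖)) :=
        mul_le_mul_of_nonneg_left hK (by positivity)
    _ = 2 * (a * b) / (a + b) * (a * b + a * c + b * c) * ‖p - q‖ := by
        field_simp
    _ ≤ _ := mul_le_mul_of_nonneg_left hρ (by positivity)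

/-- The outer body cannot be at a local minimum of its distance if it is far. -/
theorem far (a b c ρ : ℝ) (ha : 0 < a) (hb : 0 < b) (hc : 0 < c) (hρ0 : 0 < ρ)
    (p q s p' q' s' : E2)
    (hcm : a • p + b • q + c • s = 0) (hcv : a • p' + b • q' + c • s' = 0)
    (hpq : 0 < ‖p - q‖) (hρ : ‖p - q‖ ≤ ρ)
    (hJ : a * d2 p p' + b * d2 q q' + c * d2 s s' = 0)
    (hE : (a * ‖p'‖ ^ 2 + b * ‖q'‖ ^ 2 + c * ‖s'‖ ^ 2) / 2 ≤
      a * b / ‖p - q‖ + a * c / ‖p - s‖ + b * c / ‖q - s‖)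
    (h0 : dt s s' = 0)
    (hfar : 2 * ρ + 32 * (a * b) * (a * b + a * c + b * c) * ρ * ((a + b + c) / (a + b)) /
      ((a + b) ^ 2 * c ^ 2) < ‖s‖) :
    ‖s'‖ ^ 2 + dt s ((a / ‖p - s‖ ^ 3) • (p - s) + (b / ‖q - s‖ ^ 3) • (q - s)) < 0 := by
  have hab : 0 < a + b := by positivity
  obtain ⟨L, hL⟩ : ∃ L, L = (a + b + c) / (a + b) := ⟨_, rfl⟩
  have hL0 : 0 < L := by rw [hL]; positivity
  obtain ⟨P, hP⟩ : ∃ P, P = a * b + a * c + b * c := ⟨_, rfl⟩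
  have hP0 : 0 < P := by rw [hP]; positivity
  rw [← hL, ← hP] at hfar
  have hz : 0 < 32 * (a * b) * P * ρ * L / ((a + b) ^ 2 * c ^ 2) := by positivity
  have hs : 0 < ‖s‖ := by linarith
  have hr : 2 * ‖p - q‖ ≤ ‖s‖ := by linarith
  have h1 := attr a b c ha hb hc p q s hcm hr hs
  have h2 := attr b a c hb ha hc q p s (by rw [← hcm]; abel) (by rwa [norm_sub_rev]) hs
  rw [show (b + a + c) / (b + a) = (a + b + c) / (a + b) by rw [add_comm b a]] at h2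
  have h3 := speed a b c ρ ha hb hc p q s p' q' s' hcm hcv hr hs hpq hρ hJ hE h0
  rw [← hL] at h1 h2 h3
  rw [← hP] at h3
  have e1 : dt s ((a / ‖p - s‖ ^ 3) • (p - s) + (b / ‖q - s‖ ^ 3) • (q - s)) =
      dt s ((a / ‖p - s‖ ^ 3) • (p - s)) + dt s ((b / ‖q - s‖ ^ 3) • (q - s)) := by
    unfold dt; simp only [add2]; ring
  rw [e1]
  have h4 : ‖s'‖ ^ 2 ≤ 2 * (a * b) * P * ρ / ((a + b) * c ^ 2 * L ^ 2 * ‖s‖ ^ 2) := by
    rw [le_div_iff₀ (by positivity)]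
    have h5 : 2 * (a * b) / (a + b) * P * ρ * (a + b) = 2 * (a * b) * P * ρ := by field_simp
    calc ‖s'‖ ^ 2 * ((a + b) * c ^ 2 * L ^ 2 * ‖s‖ ^ 2) =
        c ^ 2 * L ^ 2 * (‖s‖ ^ 2 * ‖s'‖ ^ 2) * (a + b) := by ring
      _ ≤ 2 * (a * b) / (a + b) * P * ρ * (a + b) := mul_le_mul_of_nonneg_right h3 hab.le
      _ = _ := h5
  have h6 : 2 * (a * b) * P * ρ / ((a + b) * c ^ 2 * L ^ 2 * ‖s‖ ^ 2) <
      (a + b) / (16 * L ^ 3 * ‖s‖) := by
    have h7 : 32 * (a * b) * P * ρ * L / ((a + b) ^ 2 * c ^ 2) < ‖s‖ := by linarith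
    rw [div_lt_iff₀ (by positivity)] at h7
    rw [div_lt_div_iff₀ (by positivity) (by positivity)]
    have h8 : 2 * (a * b) * P * ρ * (16 * L ^ 3 * ‖s‖) =
        (32 * (a * b) * P * ρ * L) * (L ^ 2 * ‖s‖) := by ring
    have h9 : (a + b) * ((a + b) * c ^ 2 * L ^ 2 * ‖s‖ ^ 2) =
        (‖s‖ * ((a + b) ^ 2 * c ^ 2)) * (L ^ 2 * ‖s‖) := by ring
    rw [h8, h9]
    exact mul_lt_mul_of_pos_right h7 (by positivity)
  have h10 : (a + b) / (16 * L ^ 3 * ‖s‖) = a / (16 * L ^ 3 * ‖s‖) + b / (16 * L ^ 3 * ‖s‖) := by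
    ring
  linarith

end Run7.h852.CO.Far
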