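import Pool.Agent.Run7.h852.CO.Dyn

set_option autoImplicit false

/-! Project CO (MP_ba391d_an, MP_7235ad_an): final forms. -/

namespace Run7.h852.CO

open Set

/-- centre of mass -/
noncomputable def cen (m : Fin 4 → ℝ) (q : Fin 4 → E3) : E3 := (∑ i, m i)⁻¹ • ∑ i, m i • q i

theorem sum3 (f : Fin 4 → E3) (k : Fin 3) : (∑ i, f i) k = ∑ i, f i k := by
  simp only [Fin.sum_univ_four, add3]

theorem cen_comp (m : Fin 4 → ℝ) (q : Fin 4 → E3) (k : Fin 3) :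
    cen m q k = (∑ i, m i)⁻¹ * ∑ i, m i * q i k := by
  rw [cen, smul3, sum3]
  rfl

theorem scal (m y z : Fin 4 → ℝ) (hm : ∀ i, 0 < m i) :
    (∑ i, m i)⁻¹ * ∑ i, ∑ j, m i * m j / 2 * ((y i - y j) * (z i - z j)) =
      ∑ i, m i * ((y i - (∑ k, m k)⁻¹ * ∑ k, m k * y k) *
        (z i - (∑ k, m k)⁻¹ * ∑ k, m k * z k)) := by
  have h0 := hm 0
  have h1 := hm 1
  have h2 := hm 2
  have h3 := hm 3
  simp only [Fin.sum_univ_four]
  have : 0 < m 0 + m 1 + m 2 + m 3 := by positivity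
  field_simp
  ring

theorem ang_eq (m : Fin 4 → ℝ) (hm : ∀ i, 0 < m i) (q w : Fin 4 → E3) :
    ang m q w = ∑ i, m i • cr (q i - cen m q) (w i - cen m w) := by
  have key : ∀ a b : Fin 3, (∑ i, m i)⁻¹ * ∑ i, ∑ j, m i * m j / 2 *
      ((q i - q j) a * (w i - w j) b - (q i - q j) b * (w i - w j) a) =
      ∑ i, m i * ((q i - cen m q) a * (w i - cen m w) b - (q i - cen m q) b * (w i - cen m w) a) := by
    intro a b
    have f1 := scal m (fun i => q i a) (fun i => w i b) hm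
    have f2 := scal m (fun i => q i b) (fun i => w i a) hm
    simp only [mul_sub, Finset.sum_sub_distrib] at f1 f2 ⊢
    simp only [sub3, cen_comp]
    simp only [mul_sub, sub_mul, Finset.sum_sub_distrib] at f1 f2 ⊢
    linear_combination f1 - f2
  ext k
  unfold ang
  rw [smul3, sum3, sum3]
  simp only [sum3, smul3]
  fin_cases k
  · exact key 1 2
  · exact key 2 0
  · exact key 0 1

theorem QJ_eq (m : Fin 4 → ℝ) (hm : ∀ i, 0 < m i) (q w : Fin 4 → E3) :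
    QJ m q w = (∑ i, m i) * ∑ i, m i * inner ℝ (ang m q w) (q i - cen m q) ^ 2 := by
  have hM : 0 < ∑ i, m i := Finset.sum_pos (fun i _ => hm i) Finset.univ_nonempty
  have f := scal m (fun i => inner ℝ (ang m q w) (q i)) (fun i => inner ℝ (ang m q w) (q i)) hm
  have e1 : ∀ i, inner ℝ (ang m q w) (q i - cen m q) =
      inner ℝ (ang m q w) (q i) - (∑ k, m k)⁻¹ * ∑ k, m k * inner ℝ (ang m q w) (q k) := by
    intro i
    rw [inner_sub_right, cen, inner_smul_right, inner_sum]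
    simp only [inner_smul_right]
  unfold QJ
  simp only [e1, inner_sub_right, sq]
  rw [← f, ← mul_assoc, mul_inv_cancel₀ hM.ne', one_mul]

/-- negative energy -/
theorem energy_main {m : Fin 4 → ℝ} (hm : ∀ i, 0 < m i) {μ h : ℝ} (hμ : 0 < μ)
    (hμm : ∀ i, μ ≤ m i) (hh : 0 < h) {I : Set ℝ} {x v : ℝ → Fin 4 → E3} (hs : IsSol m I x v)
    (hE : ∀ t ∈ I, ∑ i, m i * ‖v t i‖ ^ 2 / 2 - ∑ i, ∑ j, m i * m j / ‖x t i - x t j‖ / 2 ≤ -h)
    (a b : ℝ) (hI : Icc a b ⊆ I)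
    (hab : Real.pi * √(3 / (μ * h ^ 3 / (((∑ i, m i) ^ 2 - ∑ i, m i ^ 2) / 2) ^ 3)) ≤ b - a) :
    ∃ t ∈ Icc a b, 2 * (m 0 * m 1 * m 2 * m 3) *
      (μ * h ^ 3 / (((∑ i, m i) ^ 2 - ∑ i, m i ^ 2) / 2) ^ 3) * Vl (x t) ^ 2 ≤
      QJ m (x t) (v t) := by
  obtain ⟨P, hP⟩ : ∃ P, P = ((∑ i, m i) ^ 2 - ∑ i, m i ^ 2) / 2 := ⟨_, rfl⟩
  have hP0 : 0 < P := by
    have hPe : P = m 0 * m 1 + m 0 * m 2 + m 0 * m 3 + m 1 * m 2 + m 1 * m 3 + m 2 * m 3 := by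
      rw [hP]; simp only [Fin.sum_univ_four]; ring
    rw [hPe]
    have := hm 0; have := hm 1; have := hm 2; have := hm 3; positivity
  obtain ⟨κ, hκ⟩ : ∃ κ, κ = μ * h ^ 3 / P ^ 3 := ⟨_, rfl⟩
  have hκ0 : 0 < κ := by rw [hκ]; positivity
  rw [← hP, ← hκ] at hab ⊢
  have hab' : a ≤ b := by
    have : 0 ≤ Real.pi * √(3 / κ) := by positivity
    linarith
  by_contra hcon
  push Not at hcon
  have := main hm hs κ hκ0 a b hab' hI fun t ht => by
    refine (hcon t ht).trans_le ?_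
    have h1 := S_energy hm hμ hμm hh (x t) (v t) (hs.ne t (hI ht)) (hE t (hI ht))
    rw [← hP, ← hκ] at h1
    have : 0 < m 0 * m 1 * m 2 * m 3 := by
      have := hm 0; have := hm 1; have := hm 2; have := hm 3; positivity
    have h2 : κ ≤ S m (x t) - κ := by linarith
    gcongr
  linarith

/-- bounded distances -/
theorem bounded_main {m : Fin 4 → ℝ} (hm : ∀ i, 0 < m i) {R : ℝ} (hR : 0 < R) {I : Set ℝ}
    {x v : ℝ → Fin 4 → E3} (hs : IsSol m I x v) (hB : ∀ t ∈ I, ∀ i j, ‖x t i - x t j‖ ≤ R)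
    (a b : ℝ) (hI : Icc a b ⊆ I) (hab : Real.pi * √(2 * R ^ 3 / ∑ i, m i) ≤ b - a) :
    ∃ t ∈ Icc a b, 3 * (∑ i, m i) * (m 0 * m 1 * m 2 * m 3) * Vl (x t) ^ 2 ≤
      R ^ 3 * QJ m (x t) (v t) := by
  have hM : 0 < ∑ i, m i := Finset.sum_pos (fun i _ => hm i) Finset.univ_nonempty
  obtain ⟨M, hMd⟩ : ∃ M, M = ∑ i, m i := ⟨_, rfl⟩
  rw [← hMd] at hM hab ⊢
  obtain ⟨κ, hκ⟩ : ∃ κ, κ = 3 * M / (2 * R ^ 3) := ⟨_, rfl⟩
  have hκ0 : 0 < κ := by rw [hκ]; positivity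
  have hκ3 : 3 / κ = 2 * R ^ 3 / M := by rw [hκ]; field_simp
  rw [← hκ3] at hab
  have hab' : a ≤ b := by
    have : 0 ≤ Real.pi * √(3 / κ) := by positivity
    linarith
  have hp : 0 < m 0 * m 1 * m 2 * m 3 := by
    have := hm 0; have := hm 1; have := hm 2; have := hm 3; positivity
  by_contra hcon
  push Not at hcon
  have := main hm hs κ hκ0 a b hab' hI fun t ht => by
    have h0 := hcon t ht
    have h1 := S_bounded hm (x t) (hs.ne t (hI ht)) (hB t (hI ht))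
    rw [← hMd] at h1
    have h3 : 3 * M / R ^ 3 = 2 * κ := by rw [hκ]; field_simp
    have h2 : κ ≤ S m (x t) - κ := by linarith
    have h4 : 2 * (m 0 * m 1 * m 2 * m 3) * κ * Vl (x t) ^ 2 ≤
        2 * (m 0 * m 1 * m 2 * m 3) * (S m (x t) - κ) * Vl (x t) ^ 2 := by gcongr
    refine lt_of_lt_of_le ?_ h4
    have h5 : 2 * (m 0 * m 1 * m 2 * m 3) * κ * Vl (x t) ^ 2 =
        3 * M * (m 0 * m 1 * m 2 * m 3) * Vl (x t) ^ 2 / R ^ 3 := by rw [hκ]; field_simp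
    rw [h5, lt_div_iff₀ (by positivity)]
    linarith
  linarith

end Run7.h852.CO
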