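import Mathlib

set_option autoImplicit false

/-! Three lemmas of calculus; by helper312. -/

namespace Run7.h852.CO.Osc


/-- a function with second derivative at least `-A`: after a critical point -/
theorem right_of_crit (I I1 I2 : ℝ → ℝ) (A : ℝ)
    (h1 : ∀ t, HasDerivAt I (I1 t) t) (h2 : ∀ t, HasDerivAt I1 (I2 t) t) (h3 : ∀ t, -A ≤ I2 t)
    (s₀ : ℝ) (hc : I1 s₀ = 0) : ∀ t, s₀ ≤ t → I s₀ ≤ I t + A / 2 * (t - s₀) ^ 2 := by
  intro t ht
  -- I1 t + A (t - s₀) is monotone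
  have hm : Monotone fun t => I1 t + A * (t - s₀) := by
    refine monotone_of_hasDerivAt_nonneg (f' := fun t => I2 t + A * 1) (fun x => ?_) (fun x => ?_)
    · exact (h2 x).add (((hasDerivAt_id x).sub_const s₀).const_mul A)
    · show (0 : ℝ) ≤ I2 x + A * 1
      have := h3 x
      linarith
  have hpos : ∀ x, s₀ ≤ x → 0 ≤ I1 x + A * (x - s₀) := by
    intro x hx
    have := hm hx
    simp only [sub_self, mul_zero, add_zero, hc] at this
    exact this
  have hmono : MonotoneOn (fun t => I t + A / 2 * (t - s₀) ^ 2) (Set.Ici s₀) := by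
    have hd : ∀ x, HasDerivAt (fun t => I t + A / 2 * (t - s₀) ^ 2) (I1 x + A * (x - s₀)) x := by
      intro x
      have := (h1 x).add ((((hasDerivAt_id x).sub_const s₀).pow 2).const_mul (A / 2))
      refine this.congr_deriv ?_
      simp only [id]
      ring
    refine monotoneOn_of_deriv_nonneg (convex_Ici s₀) (fun x _ => (hd x).continuousAt.continuousWithinAt)
      (fun x _ => (hd x).differentiableAt.differentiableWithinAt) (fun x hx => ?_)
    rw [(hd x).deriv]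
    rw [interior_Ici] at hx
    exact hpos x (le_of_lt hx)
  have := hmono (Set.mem_Ici.2 le_rfl) (Set.mem_Ici.2 ht) ht
  simpa using this

theorem osc (I I1 I2 : ℝ → ℝ) (A T : ℝ) (hA : 0 ≤ A) (hT : 0 < T) (h1 : ∀ t, HasDerivAt I (I1 t) t)
    (h2 : ∀ t, HasDerivAt I1 (I2 t) t) (h3 : ∀ t, -A ≤ I2 t) (hp : ∀ t, I (t + T) = I t) :
    ∀ s t, I s ≤ I t + A / 2 * T ^ 2 := by
  have hper : Function.Periodic I T := hp
  have hcont : Continuous I := continuous_iff_continuousAt.2 fun x => (h1 x).continuousAt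
  -- the maximum point
  obtain ⟨s₀, hs₀, hmax⟩ := (isCompact_Icc (a := (0 : ℝ)) (b := T)).exists_isMaxOn
    ⟨0, Set.mem_Icc.2 ⟨le_rfl, hT.le⟩⟩ hcont.continuousOn
  have hmax' : ∀ x, I x ≤ I s₀ := by
    intro x
    obtain ⟨y, hy, hxy⟩ := hper.exists_mem_Ico₀ hT x
    rw [hxy]
    exact hmax (Set.mem_Icc.2 ⟨hy.1, hy.2.le⟩)
  have hc : I1 s₀ = 0 := by
    have : IsLocalMax I s₀ := Filter.Eventually.of_forall hmax'
    exact this.hasDerivAt_eq_zero (h1 s₀)
  intro s t
  obtain ⟨y, hy, hty⟩ := hper.exists_mem_Ico hT t s₀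
  have h4 := right_of_crit I I1 I2 A h1 h2 h3 s₀ hc y hy.1
  rw [hty]
  have h5 : (y - s₀) ^ 2 ≤ T ^ 2 := by
    have h6 : 0 ≤ y - s₀ := sub_nonneg.2 hy.1
    have h7 : y - s₀ ≤ T := by linarith [hy.2]
    exact pow_le_pow_left₀ h6 h7 2
  have h8 : A / 2 * (y - s₀) ^ 2 ≤ A / 2 * T ^ 2 := mul_le_mul_of_nonneg_left h5 (by linarith)
  linarith [hmax' s]



theorem min_test (g g1 : ℝ → ℝ) (g2 t : ℝ) (h1 : ∀ s, HasDerivAt g (g1 s) s) (h2 : HasDerivAt g1 g2 t)
    (hm : IsLocalMin g t) : g1 t = 0 ∧ 0 ≤ g2 := by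
  have h0 : g1 t = 0 := hm.hasDerivAt_eq_zero (h1 t)
  refine ⟨h0, ?_⟩
  by_contra hneg
  push Not at hneg
  -- `g1 s < 0` for `s > t` near `t`
  have hd : deriv g = g1 := funext fun s => (h1 s).deriv
  have hlt : ∀ᶠ s in nhdsWithin t (Set.Ioi t), g1 s < 0 := by
    have h3 : Filter.Tendsto (slope g1 t) (nhdsWithin t (Set.Ioi t)) (nhds g2) :=
      (hasDerivAt_iff_tendsto_slope.1 h2).mono_left (nhdsWithin_mono _ (fun x hx => ne_of_gt hx))
    have h4 := h3.eventually (gt_mem_nhds hneg)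
    filter_upwards [h4, self_mem_nhdsWithin] with s hs1 hs2
    rw [slope_def_field, h0, sub_zero] at hs1
    have hs3 : 0 < s - t := sub_pos.2 hs2
    by_contra hcon
    push Not at hcon
    exact absurd hs1 (not_lt.2 (div_nonneg hcon hs3.le))
  obtain ⟨b, hb1, hb2⟩ := (mem_nhdsGT_iff_exists_Ioo_subset (a := t)).1 hlt
  have hmin : ∀ᶠ s in nhdsWithin t (Set.Ioi t), g t ≤ g s := hm.filter_mono nhdsWithin_le_nhds
  obtain ⟨c, hc1, hc2⟩ := (mem_nhdsGT_iff_exists_Ioo_subset (a := t)).1 hmin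
  obtain ⟨s, hs1, hs2⟩ := exists_between (lt_min (Set.mem_Ioi.1 hb1) (Set.mem_Ioi.1 hc1))
  have hsb : s < b := hs2.trans_le (min_le_left _ _)
  have hsc : s < c := hs2.trans_le (min_le_right _ _)
  obtain ⟨x, hx, hx2⟩ := exists_hasDerivAt_eq_slope g g1 hs1
    (fun y _ => (h1 y).continuousAt.continuousWithinAt) (fun y _ => h1 y)
  have h5 : g1 x < 0 := hb2 ⟨hx.1, hx.2.trans hsb⟩
  have h6 : g t ≤ g s := hc2 ⟨hs1, hsc⟩
  rw [hx2] at h5
  have h7 : 0 ≤ (g s - g t) / (s - t) := div_nonneg (sub_nonneg.2 h6) (sub_nonneg.2 hs1.le)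
  linarith

theorem ex_min (g : Fin 3 → ℝ → ℝ) (T : ℝ) (hT : 0 < T) (hc : ∀ i, Continuous (g i))
    (hp : ∀ i t, g i (t + T) = g i t) :
    ∃ t k, (∀ i, g i t ≤ g k t) ∧ ((∀ i, i ≠ k → g i t < g k t) → IsLocalMin (g k) t) := by
  -- the maximum of the three functions
  let m : ℝ → ℝ := fun t => Finset.univ.sup' Finset.univ_nonempty fun i => g i t
  have hmc : Continuous m := Continuous.finset_sup'_apply Finset.univ_nonempty fun i _ => hc i
  have hmp : Function.Periodic m T := fun t => by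
    simp only [m, hp]
  obtain ⟨t, ht, hmin⟩ := (isCompact_Icc (a := (0 : ℝ)) (b := T)).exists_isMinOn
    ⟨0, Set.mem_Icc.2 ⟨le_rfl, hT.le⟩⟩ hmc.continuousOn
  have hmin' : ∀ x, m t ≤ m x := by
    intro x
    obtain ⟨y, hy, hxy⟩ := hmp.exists_mem_Ico₀ hT x
    rw [hxy]
    exact hmin (Set.mem_Icc.2 ⟨hy.1, hy.2.le⟩)
  have hle : ∀ i x, g i x ≤ m x := fun i x => Finset.le_sup' (fun i => g i x) (Finset.mem_univ i)
  obtain ⟨k, _, hk⟩ := Finset.exists_mem_eq_sup' (Finset.univ_nonempty (α := Fin 3)) fun i => g i t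
  have hk' : m t = g k t := hk
  refine ⟨t, k, fun i => by rw [← hk']; exact hle i t, fun hlt => ?_⟩
  -- near `t` the maximum is `g k`
  have hev : ∀ᶠ x in nhds t, ∀ i, i ≠ k → g i x < g k x := by
    rw [Filter.eventually_all]
    intro i
    by_cases hik : i = k
    · exact Filter.Eventually.of_forall fun x h => absurd hik h
    · filter_upwards [(hc i).continuousAt.eventually_lt (hc k).continuousAt (hlt i hik)] with x hx _
      exact hx
  filter_upwards [hev] with x hx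
  have h1 : m x = g k x := by
    refine le_antisymm (Finset.sup'_le _ _ fun i _ => ?_) (hle k x)
    by_cases hik : i = k
    · rw [hik]
    · exact (hx i hik).le
  calc g k t = m t := hk'.symm
    _ ≤ m x := hmin' x
    _ = g k x := h1

end Run7.h852.CO.Osc
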