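import Pool.Agent.Run7.h852.CO.Size
import Pool.Agent.Run7.h852.CO.Osc

set_option autoImplicit false

/-! Project CO: period and size of the reduced periodic solutions, bounded by the number of
eclipses. -/

namespace Run7.h852.CO.Per

open Set
open Run7.h852.CO.Pl (E2 d2 sub2 add2 smul2 IsSol Ar main S_energy ang cen S)
open Run7.h852.CO.Far Run7.h852.CO.Size

noncomputable def thr (a b c ρ : ℝ) : ℝ :=
  2 * ρ + 32 * (a * b) * (a * b + a * c + b * c) * ρ * ((a + b + c) / (a + b)) /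
      ((a + b) ^ 2 * c ^ 2)

theorem vel_cm {m : Fin 3 → ℝ} {x v : ℝ → Fin 3 → E2} (hs : IsSol m univ x v)
    (hcm : ∀ t, ∑ i, m i • x t i = 0) (t : ℝ) : ∑ i, m i • v t i = 0 := by
  have h1 : HasDerivAt (fun s => ∑ i, m i • x s i) (∑ i, m i • v t i) t :=
    HasDerivAt.fun_sum fun i _ => (hs.vel t (mem_univ t) i).const_smul (m i)
  have h2 : (fun s => ∑ i, m i • x s i) = fun _ => (0 : E2) := funext hcm
  rw [h2] at h1
  exact h1.unique (hasDerivAt_const t 0)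

theorem size_at {m : Fin 3 → ℝ} (hm : ∀ i, 0 < m i) {h ρ : ℝ} (hh : 0 < h) (hρ0 : 0 < ρ)
    {x v : ℝ → Fin 3 → E2} (hs : IsSol m univ x v) (hcm : ∀ t, ∑ i, m i • x t i = 0)
    (hJ : ∀ t, ∑ i, m i * d2 (x t i) (v t i) = 0)
    (hE : ∀ t, ∑ i, m i * ‖v t i‖ ^ 2 / 2 - ∑ i, ∑ j, m i * m j / ‖x t i - x t j‖ / 2 = -h)
    (hclose : ∀ t, ∃ i j, i ≠ j ∧ ‖x t i - x t j‖ ≤ ρ) {T : ℝ} (hT : 0 < T)
    (hper : ∀ t i, ‖x (t + T) i‖ = ‖x t i‖) :
    ∃ t i j l, i ≠ j ∧ i ≠ l ∧ j ≠ l ∧ ∑ k, m k * ‖x t k‖ ^ 2 ≤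
      (m i * m j * ρ ^ 2 + m l * (m i + m j + m l) * thr (m i) (m j) (m l) ρ ^ 2) /
        (m i + m j) := by
  obtain ⟨lam, hlam⟩ : ∃ lam : Fin 3 → ℝ, lam = fun k => (∑ i, m i) / (∑ i, m i - m k) := ⟨_, rfl⟩
  have hd := fun (t : ℝ) (i : Fin 3) => nsq_deriv (a := fun s => x s i) (b := fun s => v s i)
    (hs.vel t (mem_univ t) i) (hs.acc t (mem_univ t) i)
  obtain ⟨t, k, hmax, hloc⟩ := Osc.ex_min (fun k s => lam k ^ 2 * ‖x s k‖ ^ 2) T hT
    (fun i => continuous_iff_continuousAt.2 fun s => ((hd s i).1.const_mul _).continuousAt)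
    (fun i s => by simp only [hper])
  obtain ⟨i, j, hij, hr⟩ := hclose t
  obtain ⟨l, hil, hjl⟩ : ∃ l, i ≠ l ∧ j ≠ l := by
    clear hr
    revert i j; decide
  have hc3 : m i • x t i + m j • x t j + m l • x t l = 0 := by
    rw [← sum3 (fun k => m k • x t k) hij hil hjl]; exact hcm t
  have hv3 : m i • v t i + m j • v t j + m l • v t l = 0 := by
    rw [← sum3 (fun k => m k • v t k) hij hil hjl]; exact vel_cm hs hcm t
  refine ⟨t, i, j, l, hij, hil, hjl, ?_⟩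
  rw [sum3 (fun k => m k * ‖x t k‖ ^ 2) hij hil hjl]
  by_cases hR : ‖x t l‖ ≤ thr (m i) (m j) (m l) ρ
  · exact mom _ _ _ _ _ (hm i) (hm j) (hm l) _ _ _ hc3 hr hR
  exfalso
  push Not at hR
  have mi := hm i
  have mj := hm j
  have ml := hm l
  have hthr : 2 * ρ < thr (m i) (m j) (m l) ρ := by
    unfold thr
    have : 0 < 32 * (m i * m j) * (m i * m j + m i * m l + m j * m l) * ρ *
      ((m i + m j + m l) / (m i + m j)) / ((m i + m j) ^ 2 * m l ^ 2) := by positivity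
    linarith
  have hsρ : ρ < ‖x t l‖ := by linarith
  have hM : ∑ i, m i = m i + m j + m l := sum3 m hij hil hjl
  have hpq : 0 < ‖x t i - x t j‖ := norm_pos_iff.2 (sub_ne_zero.2 (hs.ne t (mem_univ t) i j hij))
  have u1 := uniq (m i) (m j) (m l) ρ mi mj ml _ _ _ hc3 hr hsρ
  have u2 := uniq (m j) (m i) (m l) ρ mj mi ml (x t j) (x t i) (x t l)
    (by rw [← hc3]; abel) (by rwa [norm_sub_rev]) hsρ
  have l1 : lam i = (m i + m j + m l) / (m j + m l) := by
    rw [hlam]; simp only; rw [hM]; congr 1; ring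
  have l2 : lam j = (m j + m i + m l) / (m i + m l) := by
    rw [hlam]; simp only; rw [hM]; congr 1 <;> ring
  have l3 : lam l = (m i + m j + m l) / (m i + m j) := by
    rw [hlam]; simp only; rw [hM]; congr 1; ring
  have l3' : lam l = (m j + m i + m l) / (m j + m i) := by rw [l3, add_comm (m i)]
  rw [← l1, ← l3] at u1
  rw [← l2, ← l3'] at u2
  have li0 : 0 ≤ lam i := by rw [l1]; positivity
  have lj0 : 0 ≤ lam j := by rw [l2]; positivity
  have g1 : lam i ^ 2 * ‖x t i‖ ^ 2 < lam l ^ 2 * ‖x t l‖ ^ 2 := by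
    rw [← mul_pow, ← mul_pow]
    exact pow_lt_pow_left₀ u1 (by positivity) two_ne_zero
  have g2 : lam j ^ 2 * ‖x t j‖ ^ 2 < lam l ^ 2 * ‖x t l‖ ^ 2 := by
    rw [← mul_pow, ← mul_pow]
    exact pow_lt_pow_left₀ u2 (by positivity) two_ne_zero
  have hcase : ∀ i j l : Fin 3, i ≠ j → i ≠ l → j ≠ l → ∀ r, r ≠ l → r = i ∨ r = j := by decide
  have hlt : ∀ r, r ≠ l → lam r ^ 2 * ‖x t r‖ ^ 2 < lam l ^ 2 * ‖x t l‖ ^ 2 := by
    intro r hrl
    rcases hcase i j l hij hil hjl r hrl with rfl | rfl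
    · exact g1
    · exact g2
  have hkl : k = l := by
    by_contra hkl
    have := hlt k hkl
    have := hmax l
    linarith
  rw [hkl] at hloc
  have hmin := hloc hlt
  have ll0 : 0 < lam l ^ 2 := by
    have : 0 < lam l := by rw [l3]; positivity
    positivity
  obtain ⟨c1, c2⟩ := Osc.min_test (fun s => lam l ^ 2 * ‖x s l‖ ^ 2)
    (fun s => lam l ^ 2 * (2 * dt (x s l) (v s l))) _ t
    (fun s => (hd s l).1.const_mul _) ((hd t l).2.const_mul _) hmin
  have d1 : dt (x t l) (v t l) = 0 := by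
    have : lam l ^ 2 * (2 * dt (x t l) (v t l)) = 2 * lam l ^ 2 * dt (x t l) (v t l) := by ring
    rw [this] at c1
    rcases mul_eq_zero.1 c1 with h' | h'
    · exfalso; linarith
    · exact h'
  have d2' : 0 ≤ ‖v t l‖ ^ 2 + dt (x t l)
      (∑ j, (m j / ‖x t j - x t l‖ ^ 3) • (x t j - x t l)) := by
    by_contra hneg
    push Not at hneg
    have : lam l ^ 2 * (2 * (‖v t l‖ ^ 2 + dt (x t l)
      (∑ j, (m j / ‖x t j - x t l‖ ^ 3) • (x t j - x t l)))) < 0 := by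
      nlinarith
    linarith
  have hacc : ∑ j, (m j / ‖x t j - x t l‖ ^ 3) • (x t j - x t l) =
      (m i / ‖x t i - x t l‖ ^ 3) • (x t i - x t l) +
      (m j / ‖x t j - x t l‖ ^ 3) • (x t j - x t l) := by
    rw [sum3 (fun j => (m j / ‖x t j - x t l‖ ^ 3) • (x t j - x t l)) hij hil hjl]
    simp
  rw [hacc] at d2'
  have hJ3 : m i * d2 (x t i) (v t i) + m j * d2 (x t j) (v t j) + m l * d2 (x t l) (v t l) = 0 := by
    rw [← sum3 (fun k => m k * d2 (x t k) (v t k)) hij hil hjl]; exact hJ t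
  have hE3 : (m i * ‖v t i‖ ^ 2 + m j * ‖v t j‖ ^ 2 + m l * ‖v t l‖ ^ 2) / 2 ≤
      m i * m j / ‖x t i - x t j‖ + m i * m l / ‖x t i - x t l‖ + m j * m l / ‖x t j - x t l‖ := by
    have he := hE t
    rw [sum3 (fun k => m k * ‖v t k‖ ^ 2 / 2) hij hil hjl,
      sum3 (fun a => ∑ b, m a * m b / ‖x t a - x t b‖ / 2) hij hil hjl,
      sum3 (fun b => m i * m b / ‖x t i - x t b‖ / 2) hij hil hjl,
      sum3 (fun b => m j * m b / ‖x t j - x t b‖ / 2) hij hil hjl,
      sum3 (fun b => m l * m b / ‖x t l - x t b‖ / 2) hij hil hjl] at he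
    rw [norm_sub_rev (x t j) (x t i), norm_sub_rev (x t l) (x t i),
      norm_sub_rev (x t l) (x t j), mul_comm (m j) (m i), mul_comm (m l) (m i),
      mul_comm (m l) (m j)] at he
    simp only [sub_self, norm_zero, div_zero, zero_div] at he
    linarith
  have hfar := far (m i) (m j) (m l) ρ mi mj ml hρ0 (x t i) (x t j) (x t l) (v t i) (v t j) (v t l)
    hc3 hv3 hpq hr hJ3 hE3 d1 hR
  linarith

/-- a collinear instant in each interval of the length `π √(2/κ)` -/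
theorem zero_in {m : Fin 3 → ℝ} (hm : ∀ i, 0 < m i) {κ : ℝ} (hκ : 0 < κ)
    {x v : ℝ → Fin 3 → E2} (hs : IsSol m univ x v) (hcm : ∀ t, ∑ i, m i • x t i = 0)
    (hJ : ∀ t, ∑ i, m i * d2 (x t i) (v t i) = 0)
    (hS : ∀ t, 2 * κ ≤ S m (x t)) (a : ℝ) :
    ∃ t ∈ Icc a (a + Real.pi * √(2 / κ)), Ar (x t) = 0 := by
  by_contra hcon
  push Not at hcon
  have hτ : 0 < Real.pi * √(2 / κ) := mul_pos Real.pi_pos (Real.sqrt_pos.2 (by positivity))
  have h1 := main hm hs κ hκ a (a + Real.pi * √(2 / κ)) (by linarith) (subset_univ _) ?_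
  · linarith
  intro t ht
  have hc : cen m (x t) = 0 := by rw [cen, hcm t, smul_zero]
  have hv : cen m (v t) = 0 := by rw [cen, vel_cm hs hcm t, smul_zero]
  have ha : ang m (x t) (v t) = 0 := by
    rw [ang, hc, hv]
    simp only [sub_zero]
    exact hJ t
  rw [ha]
  have h0 := hcon t ht
  have hP : 0 < m 0 * m 1 * m 2 := by
    have := hm 0; have := hm 1; have := hm 2; positivity
  have hS' : 0 < S m (x t) - κ := by linarith [hS t]
  have : 0 < 2 * (m 0 * m 1 * m 2) * (S m (x t) - κ) * Ar (x t) ^ 2 := by positivity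
  simpa using this

/-- the square of the area in terms of the sides -/
theorem heron (q : Fin 3 → E2) : Ar q ^ 2 = ‖q 1 - q 0‖ ^ 2 * ‖q 2 - q 0‖ ^ 2 -
    ((‖q 1 - q 0‖ ^ 2 + ‖q 2 - q 0‖ ^ 2 - ‖q 1 - q 2‖ ^ 2) / 2) ^ 2 := by
  have h1 := lag (q 1 - q 0) (q 2 - q 0)
  have h2 : dt (q 1 - q 0) (q 2 - q 0) =
      (‖q 1 - q 0‖ ^ 2 + ‖q 2 - q 0‖ ^ 2 - ‖q 1 - q 2‖ ^ 2) / 2 := by
    rw [nsq, nsq, nsq]; unfold dt; simp only [sub2]; ring
  rw [← h2]
  have h3 : Ar q = d2 (q 1 - q 0) (q 2 - q 0) := rfl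
  rw [h3]
  linarith

/-- counting of zeros -/
theorem count (f : ℝ → ℝ) (T τ : ℝ) (hT : 0 < T) (hτ : 0 < τ) (hp : Function.Periodic f T)
    (hz : ∀ a, ∃ t ∈ Icc a (a + τ), f t = 0) (n : ℕ)
    (hn : {t | t ∈ Ico 0 T ∧ f t = 0}.encard ≤ n) : T ≤ n * τ := by
  by_contra hcon
  push Not at hcon
  obtain ⟨z0, -, hz0⟩ := hz 0
  obtain ⟨σ, hσ⟩ : ∃ σ, σ = T / (n : ℝ) := ⟨_, rfl⟩
  have hex : ∀ j : ℕ, ∃ t, f t = 0 ∧ ((j ≤ n) → z0 ≤ t ∧ t < z0 + T ∧
      z0 + ((j : ℝ) - 1) * σ < t + (if j = 0 then T + σ else 0) ∧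
      (j = 0 → t = z0) ∧ (1 ≤ j → z0 + ((j : ℝ) - 1) * σ < t ∧ t < z0 + (j : ℝ) * σ)) := by
    intro j
    by_cases hjn : j ≤ n
    · rcases Nat.eq_zero_or_pos j with hj | hj
      · refine ⟨z0, hz0, fun _ => ⟨le_rfl, by linarith, ?_, fun _ => rfl, fun h' => by omega⟩⟩
        rw [hj]
        have hσ0 : 0 ≤ σ := by rw [hσ]; positivity
        simp only [if_true]
        push_cast
        linarith
      · have hn0 : 0 < (n : ℝ) := by exact_mod_cast lt_of_lt_of_le hj hjn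
        have hστ : τ < σ := by rw [hσ, lt_div_iff₀ hn0]; linarith
        have hnσ : (n : ℝ) * σ = T := by rw [hσ]; field_simp
        obtain ⟨t, ht, ht0⟩ := hz (z0 + ((j : ℝ) - 1) * σ + (σ - τ) / 2)
        have hj1 : (1 : ℝ) ≤ j := by exact_mod_cast hj
        have hjn' : (j : ℝ) ≤ n := by exact_mod_cast hjn
        have a1 : z0 + ((j : ℝ) - 1) * σ < t := by linarith [ht.1]
        have a2 : t < z0 + (j : ℝ) * σ := by nlinarith [ht.2]
        have a3 : 0 ≤ ((j : ℝ) - 1) * σ := mul_nonneg (by linarith) (by linarith)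
        have a4 : (j : ℝ) * σ ≤ n * σ := mul_le_mul_of_nonneg_right hjn' (by linarith)
        refine ⟨t, ht0, fun _ => ⟨by linarith, by linarith, ?_, fun h' => by omega, fun _ => ⟨a1, a2⟩⟩⟩
        rw [if_neg (by omega)]
        linarith
    · exact ⟨z0, hz0, fun h' => absurd h' hjn⟩
  choose w hw0 hw using hex
  have hinj : ∀ j k : ℕ, j ≤ n → k ≤ n → j < k → w j < w k := by
    intro j k hj hk hjk
    have hk1 : 1 ≤ k := by omega
    have b1 := ((hw k hk).2.2.2.2 hk1).1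
    have hn0 : 0 < (n : ℝ) := by exact_mod_cast lt_of_lt_of_le hk1 hk
    have hσ0 : 0 < σ := by rw [hσ]; positivity
    rcases Nat.eq_zero_or_pos j with hj0 | hj0
    · rw [(hw j hj).2.2.2.1 hj0]
      have : (1 : ℝ) ≤ k := by exact_mod_cast hk1
      nlinarith
    · have b2 := ((hw j hj).2.2.2.2 hj0).2
      have : (j : ℝ) + 1 ≤ k := by exact_mod_cast hjk
      nlinarith
  have hmaps : ∀ j : Fin (n + 1), toIcoMod hT 0 (w j) ∈ {t | t ∈ Ico 0 T ∧ f t = 0} := by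
    intro j
    refine ⟨?_, ?_⟩
    · have := toIcoMod_mem_Ico hT 0 (w j)
      rwa [zero_add] at this
    · rw [toIcoMod, hp.sub_zsmul_eq]
      exact hw0 j
  have hne : ∀ j k : ℕ, j ≤ n → k ≤ n → j < k →
      toIcoMod hT 0 (w j) ≠ toIcoMod hT 0 (w k) := by
    intro j k hj hk hjk heq
    obtain ⟨r, hr⟩ := (toIcoMod_eq_toIcoMod hT).1 heq
    have c1 := hinj j k hj hk hjk
    have c2 : w k - w j < T := by
      have := (hw k hk).2.1
      have := (hw j hj).1
      linarith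
    rw [zsmul_eq_mul] at hr
    have c3 : 0 < (r : ℝ) * T := by rw [← hr]; linarith
    have c4 : (r : ℝ) * T < T := by rw [← hr]; exact c2
    have c5 : (0 : ℝ) < r := by
      by_contra h'
      push Not at h'
      nlinarith
    have c6 : (r : ℝ) < 1 := by
      by_contra h'
      push Not at h'
      nlinarith
    have c7 : (0 : ℤ) < r := by exact_mod_cast c5
    have c8 : r < (1 : ℤ) := by exact_mod_cast c6
    omega
  have hinj2 : Function.Injective fun j : Fin (n + 1) => toIcoMod hT 0 (w j) := by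
    intro j k hjk
    simp only at hjk
    by_contra hne'
    rcases lt_or_gt_of_ne hne' with h' | h'
    · exact hne j k (by omega) (by omega) h' hjk
    · exact hne k j (by omega) (by omega) h' hjk.symm
  have hcard : ((n + 1 : ℕ) : ℕ∞) ≤ {t | t ∈ Ico 0 T ∧ f t = 0}.encard := by
    have e1 : (Set.range fun j : Fin (n + 1) => toIcoMod hT 0 (w j)).encard = ((n + 1 : ℕ) : ℕ∞) := by
      rw [← Set.image_univ, hinj2.encard_image, Set.encard_univ]
      simp
    rw [← e1]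
    exact Set.encard_le_encard (Set.range_subset_iff.2 hmaps)
  have := hcard.trans hn
  have : n + 1 ≤ n := by exact_mod_cast this
  omega

end Run7.h852.CO.Per
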