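import Pool.Agent.Run7.h852.CO.Per

set_option autoImplicit false

namespace Run7.h852.CO.Per

open Set
open Run7.h852.CO.Pl (E2 d2 sub2 add2 smul2 IsSol Ar main S_energy ang cen S)
open Run7.h852.CO.Far Run7.h852.CO.Size

/-- from the energy: two bodies are close -/
theorem close {m : Fin 3 → ℝ} (hm : ∀ i, 0 < m i) {h : ℝ} (hh : 0 < h) (q w : Fin 3 → E2)
    (hE : ∑ i, m i * ‖w i‖ ^ 2 / 2 - ∑ i, ∑ j, m i * m j / ‖q i - q j‖ / 2 = -h) :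
    ∃ i j, i ≠ j ∧ ‖q i - q j‖ ≤ (m 0 * m 1 + m 0 * m 2 + m 1 * m 2) / h := by
  obtain ⟨P, hP⟩ : ∃ P, P = m 0 * m 1 + m 0 * m 2 + m 1 * m 2 := ⟨_, rfl⟩
  have hP0 : 0 < P := by
    rw [hP]
    have := hm 0; have := hm 1; have := hm 2; positivity
  rw [← hP]
  obtain ⟨ρ, hρ⟩ : ∃ ρ, ρ = P / h := ⟨_, rfl⟩
  have hρ0 : 0 < ρ := by rw [hρ]; positivity
  rw [← hρ]
  have hK : 0 ≤ ∑ i, m i * ‖w i‖ ^ 2 / 2 := Finset.sum_nonneg fun i _ => by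
    have := hm i; positivity
  have hU : h ≤ ∑ i, ∑ j, m i * m j / ‖q i - q j‖ / 2 := by linarith
  by_contra hcon
  push Not at hcon
  have hp : ∀ i j, i ≠ j → m i * m j / ‖q i - q j‖ < m i * m j / ρ := fun i j hij => by
    have h1 := hcon i j hij
    have := hm i
    have := hm j
    exact div_lt_div_of_pos_left (by positivity) hρ0 h1
  have hd : ∀ i, m i * m i / ‖q i - q i‖ = 0 := fun i => by simp
  have hPρ : P / ρ = h := by rw [hρ]; field_simp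
  simp only [Fin.sum_univ_three, hd] at hU
  have hsum : P / ρ = m 0 * m 1 / ρ + m 0 * m 2 / ρ + m 1 * m 2 / ρ := by rw [hP]; ring
  have c10 : m 1 * m 0 / ρ = m 0 * m 1 / ρ := by rw [mul_comm (m 1)]
  have c20 : m 2 * m 0 / ρ = m 0 * m 2 / ρ := by rw [mul_comm (m 2)]
  have c21 : m 2 * m 1 / ρ = m 1 * m 2 / ρ := by rw [mul_comm (m 2)]
  have p01 := hp 0 1 (by decide)
  have p02 := hp 0 2 (by decide)
  have p12 := hp 1 2 (by decide)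
  have p10 := hp 1 0 (by decide)
  have p20 := hp 2 0 (by decide)
  have p21 := hp 2 1 (by decide)
  linarith

theorem collinear_of {q : Fin 3 → E2} (hne : q 0 ≠ q 1) (h : Ar q = 0) :
    Collinear ℝ (Set.range q) := by
  rw [collinear_iff_of_mem (Set.mem_range_self 0)]
  refine ⟨q 1 - q 0, ?_⟩
  rintro _ ⟨i, rfl⟩
  have hn : 0 < ‖q 1 - q 0‖ ^ 2 := by
    have : 0 < ‖q 1 - q 0‖ := norm_pos_iff.2 (sub_ne_zero.2 (Ne.symm hne))
    positivity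
  refine ⟨dt (q 1 - q 0) (q i - q 0) / ‖q 1 - q 0‖ ^ 2, ?_⟩
  have key : d2 (q 1 - q 0) (q i - q 0) = 0 := by
    fin_cases i
    · simp [d2]
    · show d2 (q 1 - q 0) (q 1 - q 0) = 0
      unfold d2; ring
    · exact h
  rw [vadd_eq_add, ← sub_eq_iff_eq_add]
  ext k
  rw [smul2, div_mul_eq_mul_div, eq_div_iff hn.ne', nsq]
  unfold d2 at key
  unfold dt
  fin_cases k
  · simp only [Fin.zero_eta] at *
    linear_combination (-((q 1 - q 0) 1)) * key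
  · simp only [Fin.mk_one] at *
    linear_combination ((q 1 - q 0) 0) * key

theorem final {m : Fin 3 → ℝ} (hm : ∀ i, 0 < m i) {μ h : ℝ} (hμ : 0 < μ) (hμm : ∀ i, μ ≤ m i)
    (hh : 0 < h) : ∃ C : ℝ, ∀ (x v : ℝ → Fin 3 → E2), IsSol m univ x v →
    (∀ t, ∑ i, m i • x t i = 0) → (∀ t, ∑ i, m i * d2 (x t i) (v t i) = 0) →
    (∀ t, ∑ i, m i * ‖v t i‖ ^ 2 / 2 - ∑ i, ∑ j, m i * m j / ‖x t i - x t j‖ / 2 = -h) →
    ∀ T : ℝ, 0 < T → (∃ R : E2 ≃ₗᵢ[ℝ] E2, ∀ t i, x (t + T) i = R (x t i)) →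
    ∀ n : ℕ, {t | t ∈ Ico 0 T ∧ Collinear ℝ (Set.range (x t))}.encard ≤ n →
      T ≤ n * (Real.pi * √(2 * (m 0 * m 1 + m 0 * m 2 + m 1 * m 2) ^ 3 / (μ * h ^ 3))) ∧
      ∀ t i, ‖x t i‖ ≤ C * n := by
  obtain ⟨P, hP⟩ : ∃ P, P = m 0 * m 1 + m 0 * m 2 + m 1 * m 2 := ⟨_, rfl⟩
  have hP0 : 0 < P := by
    rw [hP]
    have := hm 0; have := hm 1; have := hm 2; positivity
  obtain ⟨ρ, hρ⟩ : ∃ ρ, ρ = P / h := ⟨_, rfl⟩
  have hρ0 : 0 < ρ := by rw [hρ]; positivity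
  obtain ⟨F, hF⟩ : ∃ F : Fin 3 × Fin 3 × Fin 3 → ℝ, F = fun a =>
    (m a.1 * m a.2.1 * ρ ^ 2 + m a.2.2 * (m a.1 + m a.2.1 + m a.2.2) *
      thr (m a.1) (m a.2.1) (m a.2.2) ρ ^ 2) / (m a.1 + m a.2.1) := ⟨_, rfl⟩
  obtain ⟨B, hB⟩ := (Set.finite_range F).bddAbove
  obtain ⟨κ, hκ⟩ : ∃ κ, κ = μ * h ^ 3 / P ^ 3 := ⟨_, rfl⟩
  have hκ0 : 0 < κ := by rw [hκ]; positivity
  obtain ⟨τ, hτ⟩ : ∃ τ, τ = Real.pi * √(2 / κ) := ⟨_, rfl⟩
  have hτ0 : 0 < τ := by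
    rw [hτ]; exact mul_pos Real.pi_pos (Real.sqrt_pos.2 (by positivity))
  have hτ' : Real.pi * √(2 * P ^ 3 / (μ * h ^ 3)) = τ := by
    rw [hτ, hκ]; congr 2; field_simp
  rw [← hP, hτ']
  refine ⟨√((|B| + 2 * h * τ ^ 2) / μ), ?_⟩
  intro x v hs hcm hJ hE T hT hR n hn
  have hκ2 : ∀ t, 2 * κ ≤ S m (x t) := fun t => by
    have := S_energy hm hμ hμm hh (x t) (v t) (hs.ne t (mem_univ t)) (hE t).le
    rwa [← hP, ← hκ] at this
  have hz := zero_in hm hκ0 hs hcm hJ hκ2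
  rw [← hτ] at hz
  obtain ⟨R, hR⟩ := hR
  have hdist : ∀ t i j, ‖x (t + T) i - x (t + T) j‖ = ‖x t i - x t j‖ := fun t i j => by
    rw [hR, hR, ← map_sub, R.norm_map]
  have hnorm : ∀ t i, ‖x (t + T) i‖ = ‖x t i‖ := fun t i => by rw [hR, R.norm_map]
  have hTn : T ≤ n * τ := by
    refine count (fun t => Ar (x t) ^ 2) T τ hT hτ0 ?_ ?_ n ?_
    · intro t
      simp only
      rw [heron, heron, hdist, hdist, hdist]
    · intro a
      obtain ⟨t, ht, h0⟩ := hz a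
      exact ⟨t, ht, by simp [h0]⟩
    · refine le_trans (Set.encard_le_encard ?_) hn
      rintro t ⟨ht, h0⟩
      refine ⟨ht, collinear_of (hs.ne t (mem_univ t) 0 1 (by decide)) ?_⟩
      simpa using h0
  refine ⟨hTn, ?_⟩
  have hn1 : (1 : ℝ) ≤ n := by
    rcases Nat.eq_zero_or_pos n with h0 | h0
    · rw [h0] at hTn; simp at hTn; linarith
    · exact_mod_cast h0
  -- the moment of inertia
  obtain ⟨t0, i, j, l, hij, hil, hjl, hI⟩ := size_at hm hh hρ0 hs hcm hJ hE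
    (fun t => by rw [hρ, hP]; exact close hm hh (x t) (v t) (hE t)) hT hnorm
  have hFB : (m i * m j * ρ ^ 2 + m l * (m i + m j + m l) *
      thr (m i) (m j) (m l) ρ ^ 2) / (m i + m j) ≤ B := by
    have := hB (Set.mem_range_self (i, j, l))
    rw [hF] at this
    exact this
  have hL := lj hm hs hE
  have hosc := Osc.osc (fun s => ∑ i, m i * ‖x s i‖ ^ 2)
    (fun s => ∑ i, m i * (2 * dt (x s i) (v s i)))
    (fun s => ∑ i, m i * (2 * (‖v s i‖ ^ 2 + dt (x s i) (acc m (x s) i)))) (4 * h) T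
    (by positivity) hT (fun t => (hL t).1) (fun t => (hL t).2.1) (fun t => (hL t).2.2)
    (fun t => by simp only [hnorm])
  intro t k
  have h1 := hosc t t0
  have h2 : m k * ‖x t k‖ ^ 2 ≤ ∑ i, m i * ‖x t i‖ ^ 2 :=
    Finset.single_le_sum (f := fun i => m i * ‖x t i‖ ^ 2)
      (fun i _ => by have := hm i; positivity) (Finset.mem_univ k)
  have h3 : μ * ‖x t k‖ ^ 2 ≤ m k * ‖x t k‖ ^ 2 :=
    mul_le_mul_of_nonneg_right (hμm k) (by positivity)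
  have h4 : T ^ 2 ≤ (n * τ) ^ 2 := pow_le_pow_left₀ hT.le hTn 2
  have h5 : μ * ‖x t k‖ ^ 2 ≤ (|B| + 2 * h * τ ^ 2) * (n : ℝ) ^ 2 := by
    have h6 : 4 * h / 2 * T ^ 2 ≤ 2 * h * τ ^ 2 * (n : ℝ) ^ 2 := by
      have := mul_le_mul_of_nonneg_left h4 (by positivity : 0 ≤ 2 * h)
      nlinarith
    have h7 : B ≤ |B| * (n : ℝ) ^ 2 := by
      have e1 : B ≤ |B| := le_abs_self B
      have e2 : (1 : ℝ) ≤ (n : ℝ) ^ 2 := one_le_pow₀ hn1
      have e3 : |B| * 1 ≤ |B| * (n : ℝ) ^ 2 := mul_le_mul_of_nonneg_left e2 (abs_nonneg B)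
      linarith
    linarith
  have hA0 : 0 ≤ (|B| + 2 * h * τ ^ 2) / μ := by positivity
  have h8 : ‖x t k‖ ^ 2 ≤ (√((|B| + 2 * h * τ ^ 2) / μ) * n) ^ 2 := by
    rw [mul_pow, Real.sq_sqrt hA0, div_mul_eq_mul_div, le_div_iff₀ hμ]
    linarith
  exact (le_abs_self _).trans (abs_le_of_sq_le_sq h8 (by positivity))

end Run7.h852.CO.Per
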