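import Mathlib

set_option autoImplicit false

/-! Project CO: three bodies in the plane, the area along solutions. -/

namespace Run7.h852.CO.Pl

open Set

abbrev E2 := EuclideanSpace ℝ (Fin 2)

/-- determinant -/
def d2 (a b : E2) : ℝ := a 0 * b 1 - a 1 * b 0

/-- The basic identity, in orthogonal coordinates with masses `p, q`. -/
theorem alg1 (p q : ℝ) (hp : 0 < p) (hq : 0 < q) (a b a' b' : E2) :
    2 * d2 a b * d2 a' b' - 1 / 2 * (d2 a' b + d2 a b') ^ 2 ≤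
      (p * d2 a a' + q * d2 b b') ^ 2 / (2 * (p * q)) := by
  obtain ⟨k11, h11⟩ : ∃ k, k = d2 a' b := ⟨_, rfl⟩
  obtain ⟨k22, h22⟩ : ∃ k, k = d2 a b' := ⟨_, rfl⟩
  obtain ⟨k21, h21⟩ : ∃ k, k = d2 a a' := ⟨_, rfl⟩
  obtain ⟨k12, h12⟩ : ∃ k, k = d2 b b' := ⟨_, rfl⟩
  have e1 : d2 a b * d2 a' b' = k11 * k22 + k12 * k21 := by
    rw [h11, h22, h12, h21]; unfold d2; ring
  have e2 : 2 * d2 a b * d2 a' b' = 2 * (k11 * k22 + k12 * k21) := by rw [← e1]; ring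
  rw [e2, ← h11, ← h22, ← h21, ← h12]
  have e3 : (p * k21 + q * k12) ^ 2 / (2 * (p * q)) -
      (2 * (k11 * k22 + k12 * k21) - 1 / 2 * (k11 + k22) ^ 2) =
      1 / 2 * (k11 - k22) ^ 2 + (p * k21 - q * k12) ^ 2 / (2 * (p * q)) := by
    field_simp
    ring
  have e4 : 0 ≤ 1 / 2 * (k11 - k22) ^ 2 + (p * k21 - q * k12) ^ 2 / (2 * (p * q)) := by positivity
  linarith

theorem sub2 (u v : E2) (k : Fin 2) : (u - v) k = u k - v k := rfl
theorem add2 (u v : E2) (k : Fin 2) : (u + v) k = u k + v k := rfl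
theorem smul2 (s : ℝ) (v : E2) (k : Fin 2) : (s • v) k = s * v k := rfl

/-- twice the area -/
def Ar (q : Fin 3 → E2) : ℝ := d2 (q 1 - q 0) (q 2 - q 0)

noncomputable def S (m : Fin 3 → ℝ) (q : Fin 3 → E2) : ℝ := ∑ i, ∑ j, m j / ‖q j - q i‖ ^ 3

noncomputable def cen (m : Fin 3 → ℝ) (q : Fin 3 → E2) : E2 := (∑ i, m i)⁻¹ • ∑ i, m i • q i

/-- angular momentum about the centre of mass -/
noncomputable def ang (m : Fin 3 → ℝ) (q w : Fin 3 → E2) : ℝ :=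
  ∑ i, m i * d2 (q i - cen m q) (w i - cen m w)

theorem sum2 (f : Fin 3 → E2) (k : Fin 2) : (∑ i, f i) k = ∑ i, f i k := by
  simp only [Fin.sum_univ_three, add2]

theorem cen_comp (m : Fin 3 → ℝ) (q : Fin 3 → E2) (k : Fin 2) :
    cen m q k = (∑ i, m i)⁻¹ * ∑ i, m i * q i k := by
  rw [cen, smul2, sum2]
  rfl

/-- Lagrange's identity in Jacobi coordinates -/
theorem scal (m y z : Fin 3 → ℝ) (hm : ∀ i, 0 < m i) :
    ∑ i, m i * ((y i - (∑ k, m k)⁻¹ * ∑ k, m k * y k) *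
        (z i - (∑ k, m k)⁻¹ * ∑ k, m k * z k)) =
      m 0 * m 1 / (m 0 + m 1) * ((y 1 - y 0) * (z 1 - z 0)) +
      (m 0 + m 1) * m 2 / (m 0 + m 1 + m 2) *
        (((y 2 - y 0) - m 1 / (m 0 + m 1) * (y 1 - y 0)) *
          ((z 2 - z 0) - m 1 / (m 0 + m 1) * (z 1 - z 0))) := by
  have h0 := hm 0
  have h1 := hm 1
  have h2 := hm 2
  simp only [Fin.sum_univ_three]
  have : 0 < m 0 + m 1 := by positivity
  have : 0 < m 0 + m 1 + m 2 := by positivity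
  field_simp
  ring

/-- the basic inequality -/
theorem base (m : Fin 3 → ℝ) (hm : ∀ i, 0 < m i) (q w : Fin 3 → E2) :
    2 * (m 0 * m 1 * m 2) * (2 * Ar q * d2 (w 1 - w 0) (w 2 - w 0) -
      1 / 2 * (d2 (w 1 - w 0) (q 2 - q 0) + d2 (q 1 - q 0) (w 2 - w 0)) ^ 2) ≤
      (∑ i, m i) * ang m q w ^ 2 := by
  have h0 := hm 0
  have h1 := hm 1
  have h2 := hm 2
  have g1 : 0 < m 0 + m 1 := by positivity
  have g2 : 0 < m 0 + m 1 + m 2 := by positivity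
  obtain ⟨c, hc⟩ : ∃ c, c = m 1 / (m 0 + m 1) := ⟨_, rfl⟩
  obtain ⟨p, hp⟩ : ∃ p, p = m 0 * m 1 / (m 0 + m 1) := ⟨_, rfl⟩
  obtain ⟨r, hr⟩ : ∃ r, r = (m 0 + m 1) * m 2 / (m 0 + m 1 + m 2) := ⟨_, rfl⟩
  have hp0 : 0 < p := by rw [hp]; positivity
  have hr0 : 0 < r := by rw [hr]; positivity
  have hpr : (m 0 + m 1 + m 2) * (p * r) = m 0 * m 1 * m 2 := by rw [hp, hr]; field_simp
  have key := alg1 p r hp0 hr0 (q 1 - q 0) ((q 2 - q 0) - c • (q 1 - q 0)) (w 1 - w 0)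
    ((w 2 - w 0) - c • (w 1 - w 0))
  have t0 : d2 (q 1 - q 0) ((q 2 - q 0) - c • (q 1 - q 0)) = Ar q := by
    unfold Ar d2; simp only [sub2, smul2]; ring
  have t1 : d2 (w 1 - w 0) ((w 2 - w 0) - c • (w 1 - w 0)) = d2 (w 1 - w 0) (w 2 - w 0) := by
    unfold d2; simp only [sub2, smul2]; ring
  have t2 : d2 (w 1 - w 0) ((q 2 - q 0) - c • (q 1 - q 0)) +
      d2 (q 1 - q 0) ((w 2 - w 0) - c • (w 1 - w 0)) =
      d2 (w 1 - w 0) (q 2 - q 0) + d2 (q 1 - q 0) (w 2 - w 0) := by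
    unfold d2; simp only [sub2, smul2]; ring
  have t3 : ang m q w = p * d2 (q 1 - q 0) (w 1 - w 0) +
      r * d2 ((q 2 - q 0) - c • (q 1 - q 0)) ((w 2 - w 0) - c • (w 1 - w 0)) := by
    have f1 := scal m (fun i => q i 0) (fun i => w i 1) hm
    have f2 := scal m (fun i => q i 1) (fun i => w i 0) hm
    rw [← hp, ← hr, ← hc] at f1 f2
    unfold ang d2
    simp only [sub2, smul2, cen_comp]
    simp only [mul_sub, Finset.sum_sub_distrib] at f1 f2 ⊢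
    linear_combination f1 - f2
  rw [t0, t1, t2, ← t3, le_div_iff₀ (by positivity)] at key
  have hM : ∑ i, m i = m 0 + m 1 + m 2 := Fin.sum_univ_three _
  have k2 := mul_le_mul_of_nonneg_left key g2.le
  calc _ = (m 0 + m 1 + m 2) * ((2 * Ar q * d2 (w 1 - w 0) (w 2 - w 0) -
      1 / 2 * (d2 (w 1 - w 0) (q 2 - q 0) + d2 (q 1 - q 0) (w 2 - w 0)) ^ 2) *
        (2 * (p * r))) := by rw [← hpr]; ring
    _ ≤ _ := k2
    _ = _ := by rw [hM]

theorem comp_deriv {a : ℝ → E2} {a' : E2} {t : ℝ} (h : HasDerivAt a a' t) (k : Fin 2) :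
    HasDerivAt (fun s => a s k) (a' k) t :=
  (EuclideanSpace.proj k : E2 →L[ℝ] ℝ).hasFDerivAt.comp_hasDerivAt t h

theorem d2_deriv {a b : ℝ → E2} {a' b' : E2} {t : ℝ} (ha : HasDerivAt a a' t)
    (hb : HasDerivAt b b' t) :
    HasDerivAt (fun s => d2 (a s) (b s)) (d2 a' (b t) + d2 (a t) b') t := by
  unfold d2
  have h := ((comp_deriv ha 0).mul (comp_deriv hb 1)).sub ((comp_deriv ha 1).mul (comp_deriv hb 0))
  refine h.congr_deriv ?_
  ring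

/-- solutions of the planar three-body problem at the times of `I` -/
structure IsSol (m : Fin 3 → ℝ) (I : Set ℝ) (x v : ℝ → Fin 3 → E2) : Prop where
  ne : ∀ t ∈ I, ∀ i j, i ≠ j → x t i ≠ x t j
  vel : ∀ t ∈ I, ∀ i, HasDerivAt (fun s => x s i) (v t i) t
  acc : ∀ t ∈ I, ∀ i, HasDerivAt (fun s => v s i)
    (∑ j, (m j / ‖x t j - x t i‖ ^ 3) • (x t j - x t i)) t

/-- first derivative of the area -/
def A1 (q w : Fin 3 → E2) : ℝ := d2 (w 1 - w 0) (q 2 - q 0) + d2 (q 1 - q 0) (w 2 - w 0)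

theorem Ar_deriv {m : Fin 3 → ℝ} {I : Set ℝ} {x v : ℝ → Fin 3 → E2} (h : IsSol m I x v) {t : ℝ}
    (ht : t ∈ I) :
    HasDerivAt (fun s => Ar (x s)) (A1 (x t) (v t)) t ∧
    HasDerivAt (fun s => A1 (x s) (v s))
      (-S m (x t) * Ar (x t) + 2 * d2 (v t 1 - v t 0) (v t 2 - v t 0)) t := by
  have u1 := (h.vel t ht 1).sub (h.vel t ht 0)
  have u2 := (h.vel t ht 2).sub (h.vel t ht 0)
  have w1 := (h.acc t ht 1).sub (h.acc t ht 0)
  have w2 := (h.acc t ht 2).sub (h.acc t ht 0)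
  refine ⟨d2_deriv u1 u2, ?_⟩
  have hh := (d2_deriv w1 u2).add (d2_deriv u1 w2)
  refine hh.congr_deriv ?_
  unfold S Ar
  simp only [Fin.sum_univ_three]
  obtain ⟨k, hk⟩ : ∃ k : Fin 3 → Fin 3 → ℝ, k = fun i j => m j / ‖x t j - x t i‖ ^ 3 := ⟨_, rfl⟩
  have hk' : ∀ i j, m j / ‖x t j - x t i‖ ^ 3 = k i j := fun i j => by rw [hk]
  have hkk : ∀ i, k i i = 0 := fun i => by rw [hk]; simp
  simp only [hk']
  simp only [hkk]
  unfold d2
  simp only [Pi.sub_apply, sub2, add2, smul2]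
  ring

/-- the logarithmic derivative of the area -/
theorem log_deriv {m : Fin 3 → ℝ} (hm : ∀ i, 0 < m i) {I : Set ℝ} {x v : ℝ → Fin 3 → E2}
    (h : IsSol m I x v) {t : ℝ} (ht : t ∈ I) (hV : Ar (x t) ≠ 0) :
    ∃ y', HasDerivAt (fun s => A1 (x s) (v s) / Ar (x s)) y' t ∧
      y' + (A1 (x t) (v t) / Ar (x t)) ^ 2 / 2 + S m (x t) ≤
        (∑ i, m i) * ang m (x t) (v t) ^ 2 / (2 * (m 0 * m 1 * m 2) * Ar (x t) ^ 2) := by
  have hP : 0 < m 0 * m 1 * m 2 := by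
    have := hm 0; have := hm 1; have := hm 2; positivity
  obtain ⟨d1, d3⟩ := Ar_deriv h ht
  refine ⟨_, d3.div d1 hV, ?_⟩
  have hv2 : 0 < Ar (x t) ^ 2 := by positivity
  have hb := base m hm (x t) (v t)
  rw [le_div_iff₀ (by positivity)]
  have e : ((-S m (x t) * Ar (x t) + 2 * d2 (v t 1 - v t 0) (v t 2 - v t 0)) * Ar (x t) -
      A1 (x t) (v t) * A1 (x t) (v t)) / Ar (x t) ^ 2 + (A1 (x t) (v t) / Ar (x t)) ^ 2 / 2 +
      S m (x t) = (2 * Ar (x t) * d2 (v t 1 - v t 0) (v t 2 - v t 0) -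
        1 / 2 * A1 (x t) (v t) ^ 2) / Ar (x t) ^ 2 := by
    field_simp
    ring
  rw [e]
  have e2 : (2 * Ar (x t) * d2 (v t 1 - v t 0) (v t 2 - v t 0) -
        1 / 2 * A1 (x t) (v t) ^ 2) / Ar (x t) ^ 2 * (2 * (m 0 * m 1 * m 2) * Ar (x t) ^ 2) =
      2 * (m 0 * m 1 * m 2) * (2 * Ar (x t) * d2 (v t 1 - v t 0) (v t 2 - v t 0) -
        1 / 2 * A1 (x t) (v t) ^ 2) := by
    field_simp
  rw [e2]
  exact hb

/-- Riccati -/
theorem ricc (κ : ℝ) (hκ : 0 < κ) (y y' : ℝ → ℝ) (a b : ℝ) (hab : a ≤ b)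
    (hd : ∀ t ∈ Icc a b, HasDerivAt y (y' t) t)
    (hle : ∀ t ∈ Icc a b, y' t ≤ -(κ + y t ^ 2 / 2)) : b - a < Real.pi * √(2 / κ) := by
  obtain ⟨s, hs⟩ : ∃ s, s = √(2 * κ) := ⟨_, rfl⟩
  have hs0 : 0 < s := by rw [hs]; exact Real.sqrt_pos.2 (by positivity)
  have hs2 : s ^ 2 = 2 * κ := by rw [hs]; exact Real.sq_sqrt (by positivity)
  have hF : ∀ t ∈ Icc a b, HasDerivAt (fun t => Real.arctan (y t / s) + κ / s * t)
      (1 / (1 + (y t / s) ^ 2) * (y' t / s) + κ / s * 1) t := fun t ht =>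
    ((hd t ht).div_const s).arctan.add ((hasDerivAt_id t).const_mul (κ / s))
  have hanti : AntitoneOn (fun t => Real.arctan (y t / s) + κ / s * t) (Icc a b) := by
    refine antitoneOn_of_deriv_nonpos (convex_Icc a b)
      (fun t ht => (hF t ht).continuousAt.continuousWithinAt)
      (fun t ht => (hF t (interior_subset ht)).differentiableAt.differentiableWithinAt) ?_
    intro t ht
    have ht' := interior_subset ht
    rw [(hF t ht').deriv]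
    have h1 := hle t ht'
    have h2 : 0 < 1 + (y t / s) ^ 2 := by positivity
    have h3 : κ * (1 + (y t / s) ^ 2) = κ + y t ^ 2 / 2 := by
      rw [div_pow, hs2]; field_simp
    have h4 : y' t / s ≤ -(κ * (1 + (y t / s) ^ 2)) / s := by
      rw [h3]; exact div_le_div_of_nonneg_right h1 hs0.le
    have h5 : 1 / (1 + (y t / s) ^ 2) * (y' t / s) ≤
        1 / (1 + (y t / s) ^ 2) * (-(κ * (1 + (y t / s) ^ 2)) / s) :=
      mul_le_mul_of_nonneg_left h4 (by positivity)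
    have h6 : 1 / (1 + (y t / s) ^ 2) * (-(κ * (1 + (y t / s) ^ 2)) / s) = -(κ / s) := by
      field_simp
    linarith
  have h1 := hanti (left_mem_Icc.2 hab) (right_mem_Icc.2 hab) hab
  simp only at h1
  have h2 := Real.arctan_lt_pi_div_two (y a / s)
  have h3 := Real.neg_pi_div_two_lt_arctan (y b / s)
  have h4 : κ / s * (b - a) < Real.pi := by
    have : κ / s * (b - a) = κ / s * b - κ / s * a := by ring
    linarith
  have h5 : √(2 / κ) = s / κ := by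
    rw [hs, show 2 / κ = 2 * κ / κ ^ 2 by field_simp, Real.sqrt_div (by positivity),
      Real.sqrt_sq hκ.le]
  rw [h5]
  have h6 : κ / s * (b - a) * (s / κ) < Real.pi * (s / κ) :=
    mul_lt_mul_of_pos_right h4 (by positivity)
  have h7 : κ / s * (b - a) * (s / κ) = b - a := by field_simp
  linarith

theorem main {m : Fin 3 → ℝ} (hm : ∀ i, 0 < m i) {I : Set ℝ} {x v : ℝ → Fin 3 → E2}
    (h : IsSol m I x v) (κ : ℝ) (hκ : 0 < κ) (a b : ℝ) (hab : a ≤ b) (hI : Icc a b ⊆ I)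
    (hlt : ∀ t ∈ Icc a b, (∑ i, m i) * ang m (x t) (v t) ^ 2 <
      2 * (m 0 * m 1 * m 2) * (S m (x t) - κ) * Ar (x t) ^ 2) :
    b - a < Real.pi * √(2 / κ) := by
  have hP : 0 < m 0 * m 1 * m 2 := by
    have := hm 0; have := hm 1; have := hm 2; positivity
  have hM : 0 < ∑ i, m i := Finset.sum_pos (fun i _ => hm i) Finset.univ_nonempty
  have hV : ∀ t ∈ Icc a b, Ar (x t) ≠ 0 := by
    intro t ht h0
    have h1 := hlt t ht
    have h2 : 0 ≤ (∑ i, m i) * ang m (x t) (v t) ^ 2 := by positivity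
    rw [h0] at h1
    simp at h1
    linarith
  have hex : ∀ t, ∃ y', t ∈ Icc a b → HasDerivAt (fun s => A1 (x s) (v s) / Ar (x s)) y' t ∧
      y' + (A1 (x t) (v t) / Ar (x t)) ^ 2 / 2 + S m (x t) ≤
        (∑ i, m i) * ang m (x t) (v t) ^ 2 / (2 * (m 0 * m 1 * m 2) * Ar (x t) ^ 2) := by
    intro t
    by_cases ht : t ∈ Icc a b
    · obtain ⟨y', h1, h2⟩ := log_deriv hm h (hI ht) (hV t ht)
      exact ⟨y', fun _ => ⟨h1, h2⟩⟩
    · exact ⟨0, fun h' => absurd h' ht⟩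
  choose y' hy' using hex
  refine ricc κ hκ (fun s => A1 (x s) (v s) / Ar (x s)) y' a b hab (fun t ht => (hy' t ht).1)
    fun t ht => ?_
  have h1 := (hy' t ht).2
  have hv2 : 0 < Ar (x t) ^ 2 := by have := hV t ht; positivity
  have h2 : (∑ i, m i) * ang m (x t) (v t) ^ 2 / (2 * (m 0 * m 1 * m 2) * Ar (x t) ^ 2) ≤
      S m (x t) - κ := by
    rw [div_le_iff₀ (by positivity)]
    have := hlt t ht
    linarith
  linarith

theorem S_energy {m : Fin 3 → ℝ} (hm : ∀ i, 0 < m i) {μ h : ℝ} (hμ : 0 < μ) (hμm : ∀ i, μ ≤ m i)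
    (hh : 0 < h) (q w : Fin 3 → E2) (hne : ∀ i j, i ≠ j → q i ≠ q j)
    (hE : ∑ i, m i * ‖w i‖ ^ 2 / 2 - ∑ i, ∑ j, m i * m j / ‖q i - q j‖ / 2 ≤ -h) :
    2 * (μ * h ^ 3 / (m 0 * m 1 + m 0 * m 2 + m 1 * m 2) ^ 3) ≤ S m q := by
  obtain ⟨P, hP⟩ : ∃ P, P = m 0 * m 1 + m 0 * m 2 + m 1 * m 2 := ⟨_, rfl⟩
  have hP0 : 0 < P := by
    rw [hP]
    have := hm 0; have := hm 1; have := hm 2; positivity
  obtain ⟨ρ, hρ⟩ : ∃ ρ, ρ = P / h := ⟨_, rfl⟩
  have hρ0 : 0 < ρ := by rw [hρ]; positivity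
  have hK : 0 ≤ ∑ i, m i * ‖w i‖ ^ 2 / 2 := Finset.sum_nonneg fun i _ => by
    have := hm i; positivity
  have hU : h ≤ ∑ i, ∑ j, m i * m j / ‖q i - q j‖ / 2 := by linarith
  obtain ⟨i, j, hij, hr⟩ : ∃ i j, i ≠ j ∧ ‖q i - q j‖ ≤ ρ := by
    by_contra hcon
    push Not at hcon
    have hp : ∀ i j, i ≠ j → m i * m j / ‖q i - q j‖ < m i * m j / ρ := fun i j hij => by
      have h1 := hcon i j hij
      have := hm i
      have := hm j
      exact div_lt_div_of_pos_left (by positivity) hρ0 h1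
    have hd : ∀ i, m i * m i / ‖q i - q i‖ = 0 := fun i => by simp
    have hPρ : P / ρ = h := by rw [hρ]; field_simp
    simp only [Fin.sum_univ_three, hd] at hU
    have hsum : P / ρ = m 0 * m 1 / ρ + m 0 * m 2 / ρ + m 1 * m 2 / ρ := by rw [hP]; ring
    have c10 : m 1 * m 0 / ρ = m 0 * m 1 / ρ := by rw [mul_comm (m 1)]
    have c20 : m 2 * m 0 / ρ = m 0 * m 2 / ρ := by rw [mul_comm (m 2)]
    have c21 : m 2 * m 1 / ρ = m 1 * m 2 / ρ := by rw [mul_comm (m 2)]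
    have p01 := hp 0 1 (by decide)
    have p02 := hp 0 2 (by decide)
    have p12 := hp 1 2 (by decide)
    have p10 := hp 1 0 (by decide)
    have p20 := hp 2 0 (by decide)
    have p21 := hp 2 1 (by decide)
    linarith
  have hr0 : 0 < ‖q i - q j‖ := norm_pos_iff.2 (sub_ne_zero.2 (hne i j hij))
  have ht0 : ∀ i j, 0 ≤ m j / ‖q j - q i‖ ^ 3 := fun i j => by have := hm j; positivity
  have h1 : ∑ l ∈ ({i, j} : Finset (Fin 3)), ∑ k, m k / ‖q k - q l‖ ^ 3 ≤ S m q :=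
    Finset.sum_le_sum_of_subset_of_nonneg (Finset.subset_univ _)
      fun l _ _ => Finset.sum_nonneg fun k _ => ht0 l k
  rw [Finset.sum_pair hij] at h1
  have h2 : m j / ‖q j - q i‖ ^ 3 ≤ ∑ k, m k / ‖q k - q i‖ ^ 3 :=
    Finset.single_le_sum (f := fun k => m k / ‖q k - q i‖ ^ 3) (fun k _ => ht0 i k)
      (Finset.mem_univ _)
  have h3 : m i / ‖q i - q j‖ ^ 3 ≤ ∑ k, m k / ‖q k - q j‖ ^ 3 :=
    Finset.single_le_sum (f := fun k => m k / ‖q k - q j‖ ^ 3) (fun k _ => ht0 j k)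
      (Finset.mem_univ _)
  have h4 : μ / ρ ^ 3 ≤ m i / ‖q i - q j‖ ^ 3 :=
    div_le_div₀ (hm i).le (hμm i) (by positivity) (pow_le_pow_left₀ hr0.le hr 3)
  have h5 : μ / ρ ^ 3 ≤ m j / ‖q j - q i‖ ^ 3 := by
    rw [norm_sub_rev]
    exact div_le_div₀ (hm j).le (hμm j) (by positivity) (pow_le_pow_left₀ hr0.le hr 3)
  have h6 : μ * h ^ 3 / P ^ 3 = μ / ρ ^ 3 := by rw [hρ]; field_simp
  rw [← hP, h6]
  linarith

end Run7.h852.CO.Pl
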