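import Pool.Agent.Run7.h852.CO.Far

set_option autoImplicit false

/-! Project CO: size of the reduced periodic solutions. -/

namespace Run7.h852.CO.Size

open Set
open Run7.h852.CO.Pl (E2 d2 sub2 add2 smul2 IsSol comp_deriv Ar main S_energy ang cen)
open Run7.h852.CO.Far

theorem dt_self (a : E2) : dt a a = ‖a‖ ^ 2 := by rw [nsq]; unfold dt; ring

theorem dt_deriv {a b : ℝ → E2} {a' b' : E2} {t : ℝ} (ha : HasDerivAt a a' t)
    (hb : HasDerivAt b b' t) :
    HasDerivAt (fun s => dt (a s) (b s)) (dt a' (b t) + dt (a t) b') t := by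
  unfold dt
  have h := ((comp_deriv ha 0).mul (comp_deriv hb 0)).add ((comp_deriv ha 1).mul (comp_deriv hb 1))
  refine h.congr_deriv ?_
  ring

theorem nsq_deriv {a b : ℝ → E2} {b' : E2} {t : ℝ} (ha : HasDerivAt a (b t) t)
    (hb : HasDerivAt b b' t) :
    HasDerivAt (fun s => ‖a s‖ ^ 2) (2 * dt (a t) (b t)) t ∧
    HasDerivAt (fun s => 2 * dt (a s) (b s)) (2 * (‖b t‖ ^ 2 + dt (a t) b')) t := by
  constructor
  · have h := dt_deriv ha ha
    have e : (fun s => ‖a s‖ ^ 2) = fun s => dt (a s) (a s) := by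
      funext s; rw [dt_self]
    rw [e]
    refine h.congr_deriv ?_
    unfold dt; ring
  · have h := (dt_deriv ha hb).const_mul 2
    refine h.congr_deriv ?_
    rw [dt_self]

/-- the acceleration -/
noncomputable def acc (m : Fin 3 → ℝ) (q : Fin 3 → E2) (i : Fin 3) : E2 :=
  ∑ j, (m j / ‖q j - q i‖ ^ 3) • (q j - q i)

theorem pair (m : Fin 3 → ℝ) (q : Fin 3 → E2) (i j : Fin 3) (hne : q i ≠ q j) :
    m i * (m j / ‖q j - q i‖ ^ 3) * dt (q i) (q j - q i) +
      m j * (m i / ‖q i - q j‖ ^ 3) * dt (q j) (q i - q j) = -(m i * m j / ‖q i - q j‖) := by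
  have h0 : 0 < ‖q i - q j‖ := norm_pos_iff.2 (sub_ne_zero.2 hne)
  rw [norm_sub_rev (q j) (q i)]
  have e : dt (q i) (q j - q i) + dt (q j) (q i - q j) = -‖q i - q j‖ ^ 2 := by
    rw [nsq]; unfold dt; simp only [sub2]; ring
  have : m i * (m j / ‖q i - q j‖ ^ 3) * dt (q i) (q j - q i) +
      m j * (m i / ‖q i - q j‖ ^ 3) * dt (q j) (q i - q j) =
      m i * m j / ‖q i - q j‖ ^ 3 * (dt (q i) (q j - q i) + dt (q j) (q i - q j)) := by ring
  rw [this, e]
  field_simp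

theorem vir (m : Fin 3 → ℝ) (q : Fin 3 → E2) (hne : ∀ i j, i ≠ j → q i ≠ q j) :
    ∑ i, m i * dt (q i) (acc m q i) = -∑ i, ∑ j, m i * m j / ‖q i - q j‖ / 2 := by
  have p1 := pair m q 0 1 (hne 0 1 (by decide))
  have p2 := pair m q 0 2 (hne 0 2 (by decide))
  have p3 := pair m q 1 2 (hne 1 2 (by decide))
  unfold acc
  simp only [Fin.sum_univ_three]
  have s1 : ‖q 1 - q 0‖ = ‖q 0 - q 1‖ := norm_sub_rev _ _
  have s2 : ‖q 2 - q 0‖ = ‖q 0 - q 2‖ := norm_sub_rev _ _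
  have s3 : ‖q 2 - q 1‖ = ‖q 1 - q 2‖ := norm_sub_rev _ _
  rw [s1] at p1 ⊢
  rw [s2] at p2 ⊢
  rw [s3] at p3 ⊢
  simp only [sub_self, norm_zero, smul_zero, div_zero, zero_div, add_zero, zero_add]
  have lin : ∀ (u y z : E2) (c d : ℝ), dt u (c • y + d • z) = c * dt u y + d * dt u z := by
    intro u y z c d; unfold dt; simp only [add2, smul2]; ring
  rw [lin, lin, lin]
  linear_combination p1 + p2 + p3

/-- Lagrange–Jacobi -/
theorem lj {m : Fin 3 → ℝ} (hm : ∀ i, 0 < m i) {h : ℝ} {x v : ℝ → Fin 3 → E2}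
    (hs : IsSol m univ x v)
    (hE : ∀ t, ∑ i, m i * ‖v t i‖ ^ 2 / 2 - ∑ i, ∑ j, m i * m j / ‖x t i - x t j‖ / 2 = -h)
    (t : ℝ) :
    HasDerivAt (fun s => ∑ i, m i * ‖x s i‖ ^ 2) (∑ i, m i * (2 * dt (x t i) (v t i))) t ∧
    HasDerivAt (fun s => ∑ i, m i * (2 * dt (x s i) (v s i)))
      (∑ i, m i * (2 * (‖v t i‖ ^ 2 + dt (x t i) (acc m (x t) i)))) t ∧
    -(4 * h) ≤ ∑ i, m i * (2 * (‖v t i‖ ^ 2 + dt (x t i) (acc m (x t) i))) := by
  have hd := fun i => nsq_deriv (a := fun s => x s i) (b := fun s => v s i)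
    (hs.vel t (mem_univ t) i) (hs.acc t (mem_univ t) i)
  refine ⟨?_, ?_, ?_⟩
  · exact HasDerivAt.fun_sum fun i _ => (hd i).1.const_mul (m i)
  · exact HasDerivAt.fun_sum fun i _ => (hd i).2.const_mul (m i)
  · have hv := vir m (x t) (hs.ne t (mem_univ t))
    have he := hE t
    have hU : 0 ≤ ∑ i, ∑ j, m i * m j / ‖x t i - x t j‖ / 2 :=
      Finset.sum_nonneg fun i _ => Finset.sum_nonneg fun j _ => by
        have := hm i; have := hm j; positivity
    have e1 : ∑ i, m i * (2 * (‖v t i‖ ^ 2 + dt (x t i) (acc m (x t) i))) =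
        4 * (∑ i, m i * ‖v t i‖ ^ 2 / 2) + 2 * ∑ i, m i * dt (x t i) (acc m (x t) i) := by
      simp only [Fin.sum_univ_three]; ring
    rw [e1, hv]
    linarith

theorem sum3 {α : Type*} [AddCommMonoid α] (f : Fin 3 → α) {i j l : Fin 3} (h1 : i ≠ j)
    (h2 : i ≠ l) (h3 : j ≠ l) : ∑ k, f k = f i + f j + f l := by
  have hu : (Finset.univ : Finset (Fin 3)) = {i, j, l} := by
    revert i j l; decide
  rw [hu, Finset.sum_insert (by simp [h1, h2]), Finset.sum_pair h3, add_assoc]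

/-- the outer body has the largest weighted distance -/
theorem uniq (a b c ρ : ℝ) (ha : 0 < a) (hb : 0 < b) (hc : 0 < c) (p q s : E2)
    (hcm : a • p + b • q + c • s = 0) (hρ : ‖p - q‖ ≤ ρ) (hs : ρ < ‖s‖) :
    (a + b + c) / (b + c) * ‖p‖ < (a + b + c) / (a + b) * ‖s‖ := by
  have hab : 0 < a + b := by positivity
  have hbc : 0 < b + c := by positivity
  have h1 : (a + b) • p = (-c) • s + b • (p - q) := by
    ext k
    have hk : a * p k + b * q k + c * s k = 0 := by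
      have := congrArg (fun z : E2 => z k) hcm
      simpa [add2, smul2] using this
    simp only [sub2, add2, smul2]
    linear_combination hk
  have h2 : (a + b) * ‖p‖ ≤ c * ‖s‖ + b * ‖p - q‖ := by
    have := norm_add_le ((-c) • s) (b • (p - q))
    rw [← h1, norm_smul, norm_smul, norm_smul, Real.norm_eq_abs, Real.norm_eq_abs,
      Real.norm_eq_abs, abs_neg, abs_of_pos hab, abs_of_pos hb, abs_of_pos hc] at this
    exact this
  have h3 : (a + b) * ‖p‖ < (b + c) * ‖s‖ := by nlinarith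
  rw [div_mul_eq_mul_div, div_mul_eq_mul_div, div_lt_div_iff₀ hbc hab]
  nlinarith [mul_lt_mul_of_pos_left h3 (by positivity : 0 < a + b + c)]

/-- Jacobi's formula for the moment of inertia -/
theorem mom (a b c ρ R : ℝ) (ha : 0 < a) (hb : 0 < b) (hc : 0 < c) (p q s : E2)
    (hcm : a • p + b • q + c • s = 0) (hρ : ‖p - q‖ ≤ ρ) (hs : ‖s‖ ≤ R) :
    a * ‖p‖ ^ 2 + b * ‖q‖ ^ 2 + c * ‖s‖ ^ 2 ≤
      (a * b * ρ ^ 2 + c * (a + b + c) * R ^ 2) / (a + b) := by
  have hab : 0 < a + b := by positivity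
  rw [le_div_iff₀ hab]
  have hk : ∀ k, c * s k = -(a * p k + b * q k) := fun k => by
    have := congrArg (fun z : E2 => z k) hcm
    have h' : a * p k + b * q k + c * s k = 0 := by simpa [add2, smul2] using this
    linarith
  have e : (a * ‖p‖ ^ 2 + b * ‖q‖ ^ 2 + c * ‖s‖ ^ 2) * (a + b) =
      a * b * ‖p - q‖ ^ 2 + c * (a + b + c) * ‖s‖ ^ 2 := by
    have e2 : c * (a + b + c) * ‖s‖ ^ 2 = (c * s 0) ^ 2 + (c * s 1) ^ 2 +
        c * (a + b) * ‖s‖ ^ 2 := by rw [nsq]; ring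
    rw [e2, hk 0, hk 1, nsq p, nsq q, nsq (p - q)]
    simp only [sub2]
    ring
  rw [e]
  have h1 : ‖p - q‖ ^ 2 ≤ ρ ^ 2 := pow_le_pow_left₀ (norm_nonneg _) hρ 2
  have h2 : ‖s‖ ^ 2 ≤ R ^ 2 := pow_le_pow_left₀ (norm_nonneg _) hs 2
  have h3 := mul_le_mul_of_nonneg_left h1 (by positivity : 0 ≤ a * b)
  have h4 := mul_le_mul_of_nonneg_left h2 (by positivity : 0 ≤ c * (a + b + c))
  linarith

end Run7.h852.CO.Size
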